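import Mathlib

/-!
Basic lemmas on signed sums of vectors.
-/

namespace Pool.Agent.Lib.MP_1be6c9_co

open Finset

variable {E : Type*} [NormedAddCommGroup E] [InnerProductSpace ℝ E]

theorem sum_update_smul {κ : Type*} [DecidableEq κ] (s : Finset κ) (i : κ) (hi : i ∉ s)
    (η : κ → ℝ) (c : ℝ) (a : κ → E) :
    ∑ j ∈ s, (Function.update η i c) j • a j = ∑ j ∈ s, η j • a j := by
  refine Finset.sum_congr rfl fun j hj => ?_
  have hji : j ≠ i := fun h => hi (h ▸ hj)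
  rw [Function.update_of_ne hji]

theorem sum_update_mul {κ : Type*} [DecidableEq κ] (s : Finset κ) (i : κ) (hi : i ∉ s)
    (η : κ → ℝ) (c : ℝ) (a : κ → ℝ) :
    ∑ j ∈ s, (Function.update η i c) j * a j = ∑ j ∈ s, η j * a j := by
  refine Finset.sum_congr rfl fun j hj => ?_
  have hji : j ≠ i := fun h => hi (h ▸ hj)
  rw [Function.update_of_ne hji]

theorem sign_update {κ : Type*} [DecidableEq κ] (i : κ) (η : κ → ℝ) (c : ℝ)
    (hη : ∀ j, η j = 1 ∨ η j = -1) (hc : c = 1 ∨ c = -1) :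
    ∀ j, (Function.update η i c) j = 1 ∨ (Function.update η i c) j = -1 := by
  intro j
  by_cases h : j = i
  · subst h; simpa using hc
  · rw [Function.update_of_ne h]; exact hη j

theorem norm_add_sq' (x y : E) : ‖x + y‖ ^ 2 = ‖x‖ ^ 2 + 2 * inner ℝ x y + ‖y‖ ^ 2 :=
  norm_add_sq_real x y

theorem rounding_aux {κ : Type*} [DecidableEq κ] (a : κ → E) (x : κ → ℝ)
    (hx : ∀ i, |x i| ≤ 1) (s : Finset κ) : ∀ A : E,
    ∃ η : κ → ℝ, (∀ i, η i = 1 ∨ η i = -1) ∧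
      ‖A + ∑ i ∈ s, η i • a i‖ ^ 2 ≤
        ‖A + ∑ i ∈ s, x i • a i‖ ^ 2 + ∑ i ∈ s, (1 - x i ^ 2) * ‖a i‖ ^ 2 := by
  induction s using Finset.induction_on with
  | empty =>
    intro A
    exact ⟨fun _ => 1, fun _ => Or.inl rfl, by simp⟩
  | insert i s hi ih =>
    intro A
    set L : E := ∑ j ∈ s, x j • a j with hL
    have key : ∃ c : ℝ, (c = 1 ∨ c = -1) ∧
        ‖(A + c • a i) + L‖ ^ 2 ≤ ‖A + (x i • a i + L)‖ ^ 2 + (1 - x i ^ 2) * ‖a i‖ ^ 2 := by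
      have e1 : ∀ c : ℝ, ‖(A + c • a i) + L‖ ^ 2
          = ‖A + L‖ ^ 2 + 2 * (c * inner ℝ (A + L) (a i)) + c ^ 2 * ‖a i‖ ^ 2 := by
        intro c
        have : (A + c • a i) + L = (A + L) + c • a i := by abel
        rw [this, norm_add_sq_real, inner_smul_right, norm_smul, mul_pow, Real.norm_eq_abs,
          sq_abs]
      have e2 : ‖A + (x i • a i + L)‖ ^ 2
          = ‖A + L‖ ^ 2 + 2 * (x i * inner ℝ (A + L) (a i)) + (x i) ^ 2 * ‖a i‖ ^ 2 := by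
        rw [← e1 (x i)]; congr 2; abel
      have hxi := abs_le.mp (hx i)
      by_cases h : 0 ≤ inner ℝ (A + L) (a i)
      · refine ⟨-1, Or.inr rfl, ?_⟩
        rw [e1, e2]
        nlinarith [mul_nonneg (by linarith [hxi.1] : 0 ≤ x i + 1) h]
      · refine ⟨1, Or.inl rfl, ?_⟩
        rw [e1, e2]
        push Not at h
        nlinarith [mul_nonneg (by linarith [hxi.2] : 0 ≤ 1 - x i) (by linarith : 0 ≤ - inner ℝ (A + L) (a i))]
    obtain ⟨c, hc, hle⟩ := key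
    obtain ⟨η, hη, hle2⟩ := ih (A + c • a i)
    refine ⟨Function.update η i c, sign_update i η c hη hc, ?_⟩
    rw [Finset.sum_insert hi, Finset.sum_insert hi, Finset.sum_insert hi,
      sum_update_smul s i hi, Function.update_self]
    have : A + (c • a i + ∑ j ∈ s, η j • a j) = (A + c • a i) + ∑ j ∈ s, η j • a j := by abel
    rw [this]
    linarith

/-- Rounding a fractional point of the cube to a vertex. -/
theorem rounding {κ : Type*} [Fintype κ] [DecidableEq κ] (a : κ → E) (x : κ → ℝ)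
    (hx : ∀ i, |x i| ≤ 1) :
    ∃ η : κ → ℝ, (∀ i, η i = 1 ∨ η i = -1) ∧
      ‖∑ i, η i • a i‖ ^ 2 ≤
        ‖∑ i, x i • a i‖ ^ 2 + ∑ i, (1 - x i ^ 2) * ‖a i‖ ^ 2 := by
  obtain ⟨η, h1, h2⟩ := rounding_aux a x hx Finset.univ 0
  refine ⟨η, h1, ?_⟩
  simpa using h2

/-- The kernel-weight lemma (averaging with weight `(u + ∑ ε i x i)^2`), by conditional
expectations. -/
theorem kernel_aux {κ : Type*} [DecidableEq κ] (a : κ → E) (x : κ → ℝ) (C : ℝ)
    (s : Finset κ) : ∀ (u : ℝ) (A : E),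
    ∃ η : κ → ℝ, (∀ i, η i = 1 ∨ η i = -1) ∧
      (u + ∑ i ∈ s, η i * x i) ^ 2 * (‖A + ∑ i ∈ s, η i • a i‖ ^ 2 - C) ≤
        (u ^ 2 + ∑ i ∈ s, x i ^ 2) * (‖A‖ ^ 2 + ∑ i ∈ s, ‖a i‖ ^ 2)
        + 4 * u * inner ℝ A (∑ i ∈ s, x i • a i)
        + 2 * (‖∑ i ∈ s, x i • a i‖ ^ 2 - ∑ i ∈ s, x i ^ 2 * ‖a i‖ ^ 2)
        - C * (u ^ 2 + ∑ i ∈ s, x i ^ 2) := by
  induction s using Finset.induction_on with
  | empty =>
    intro u A
    exact ⟨fun _ => 1, fun _ => Or.inl rfl, by simp; nlinarith⟩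
  | insert i s hi ih =>
    intro u A
    rw [Finset.sum_insert hi, Finset.sum_insert hi, Finset.sum_insert hi, Finset.sum_insert hi]
    set L : E := ∑ j ∈ s, x j • a j with hL
    set X : ℝ := ∑ j ∈ s, x j ^ 2 with hX
    set N : ℝ := ∑ j ∈ s, ‖a j‖ ^ 2 with hN
    set Q : ℝ := ∑ j ∈ s, x j ^ 2 * ‖a j‖ ^ 2 with hQ
    have key : ∃ c : ℝ, (c = 1 ∨ c = -1) ∧
        ((u + c * x i) ^ 2 + X) * (‖A + c • a i‖ ^ 2 + N)
        + 4 * (u + c * x i) * inner ℝ (A + c • a i) L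
        + 2 * (‖L‖ ^ 2 - Q)
        - C * ((u + c * x i) ^ 2 + X) ≤
        (u ^ 2 + (x i ^ 2 + X)) * (‖A‖ ^ 2 + (‖a i‖ ^ 2 + N))
        + 4 * u * inner ℝ A (x i • a i + L)
        + 2 * (‖x i • a i + L‖ ^ 2 - (x i ^ 2 * ‖a i‖ ^ 2 + Q))
        - C * (u ^ 2 + (x i ^ 2 + X)) := by
      have e1 : ∀ c : ℝ, ‖A + c • a i‖ ^ 2
          = ‖A‖ ^ 2 + 2 * (c * inner ℝ A (a i)) + c ^ 2 * ‖a i‖ ^ 2 := by
        intro c
        rw [norm_add_sq_real, inner_smul_right, norm_smul, mul_pow, Real.norm_eq_abs,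
          sq_abs]
      have e2 : ∀ c : ℝ, inner ℝ (A + c • a i) L = inner ℝ A L + c * inner ℝ (a i) L := by
        intro c
        rw [inner_add_left, inner_smul_left]; simp
      have e3 : inner ℝ A (x i • a i + L) = x i * inner ℝ A (a i) + inner ℝ A L := by
        rw [inner_add_right, inner_smul_right]
      have e4 : ‖x i • a i + L‖ ^ 2
          = x i ^ 2 * ‖a i‖ ^ 2 + 2 * (x i * inner ℝ (a i) L) + ‖L‖ ^ 2 := by
        rw [norm_add_sq_real, inner_smul_left, norm_smul, mul_pow, Real.norm_eq_abs,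
          sq_abs]; simp
      by_contra hcon
      push Not at hcon
      have h1 := hcon 1 (Or.inl rfl)
      have h2 := hcon (-1) (Or.inr rfl)
      rw [e1, e2, e3, e4] at h1 h2
      nlinarith
    obtain ⟨c, hc, hle⟩ := key
    obtain ⟨η, hη, hle2⟩ := ih (u + c * x i) (A + c • a i)
    refine ⟨Function.update η i c, sign_update i η c hη hc, ?_⟩
    rw [Finset.sum_insert hi, Finset.sum_insert hi, sum_update_smul s i hi,
      sum_update_mul s i hi, Function.update_self]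
    have e1 : A + (c • a i + ∑ j ∈ s, η j • a j) = (A + c • a i) + ∑ j ∈ s, η j • a j := by abel
    have e2 : u + (c * x i + ∑ j ∈ s, η j * x j) = (u + c * x i) + ∑ j ∈ s, η j * x j := by ring
    rw [e1, e2]
    linarith

/-- Quartic potential lemma. -/
theorem quartic_aux {κ : Type*} [DecidableEq κ] (a : κ → E) (y : κ → ℝ) (p q : ℝ)
    (s : Finset κ) : ∀ (u : ℝ) (A : E),
    ∃ η : κ → ℝ, (∀ i, η i = 1 ∨ η i = -1) ∧
      ‖A + ∑ i ∈ s, η i • a i‖ ^ 2 - p * (u + ∑ i ∈ s, η i * y i) ^ 2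
        + q * (u + ∑ i ∈ s, η i * y i) ^ 4 ≤
      ‖A‖ ^ 2 + ∑ i ∈ s, ‖a i‖ ^ 2 - p * (u ^ 2 + ∑ i ∈ s, y i ^ 2)
        + q * (u ^ 4 + 6 * u ^ 2 * (∑ i ∈ s, y i ^ 2) + 3 * (∑ i ∈ s, y i ^ 2) ^ 2
          - 2 * ∑ i ∈ s, y i ^ 4) := by
  induction s using Finset.induction_on with
  | empty =>
    intro u A
    exact ⟨fun _ => 1, fun _ => Or.inl rfl, by simp⟩
  | insert i s hi ih =>
    intro u A
    rw [Finset.sum_insert hi, Finset.sum_insert hi, Finset.sum_insert hi]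
    set Y : ℝ := ∑ j ∈ s, y j ^ 2 with hY
    set N : ℝ := ∑ j ∈ s, ‖a j‖ ^ 2 with hN
    set Z : ℝ := ∑ j ∈ s, y j ^ 4 with hZ
    have key : ∃ c : ℝ, (c = 1 ∨ c = -1) ∧
        ‖A + c • a i‖ ^ 2 + N - p * ((u + c * y i) ^ 2 + Y)
        + q * ((u + c * y i) ^ 4 + 6 * (u + c * y i) ^ 2 * Y + 3 * Y ^ 2 - 2 * Z) ≤
        ‖A‖ ^ 2 + (‖a i‖ ^ 2 + N) - p * (u ^ 2 + (y i ^ 2 + Y))
        + q * (u ^ 4 + 6 * u ^ 2 * (y i ^ 2 + Y) + 3 * (y i ^ 2 + Y) ^ 2
          - 2 * (y i ^ 4 + Z)) := by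
      have e1 : ∀ c : ℝ, ‖A + c • a i‖ ^ 2
          = ‖A‖ ^ 2 + 2 * (c * inner ℝ A (a i)) + c ^ 2 * ‖a i‖ ^ 2 := by
        intro c
        rw [norm_add_sq_real, inner_smul_right, norm_smul, mul_pow, Real.norm_eq_abs,
          sq_abs]
      by_contra hcon
      push Not at hcon
      have h1 := hcon 1 (Or.inl rfl)
      have h2 := hcon (-1) (Or.inr rfl)
      rw [e1] at h1 h2
      nlinarith
    obtain ⟨c, hc, hle⟩ := key
    obtain ⟨η, hη, hle2⟩ := ih (u + c * y i) (A + c • a i)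
    refine ⟨Function.update η i c, sign_update i η c hη hc, ?_⟩
    rw [Finset.sum_insert hi, Finset.sum_insert hi, sum_update_smul s i hi,
      sum_update_mul s i hi, Function.update_self]
    have e1 : A + (c • a i + ∑ j ∈ s, η j • a j) = (A + c • a i) + ∑ j ∈ s, η j • a j := by abel
    have e2 : u + (c * y i + ∑ j ∈ s, η j * y j) = (u + c * y i) + ∑ j ∈ s, η j * y j := by ring
    rw [e1, e2]
    linarith

end Pool.Agent.Lib.MP_1be6c9_co
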