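import Pool.Agent.Lib.MP_1be6c9_co.Polytope

/-!
Uniform gap: analysis of a family all of whose signed sums are long.
-/

namespace Pool.Agent.Lib.MP_1be6c9_co

open Finset

variable {E : Type*} [NormedAddCommGroup E] [InnerProductSpace ℝ E]

/-- All signed sums have squared norm larger than `R`. -/
def Long {κ : Type*} [Fintype κ] (v : κ → E) (R : ℝ) : Prop :=
  ∀ η : κ → ℝ, (∀ i, η i = 1 ∨ η i = -1) → R < ‖∑ i, η i • v i‖ ^ 2

theorem long_round {κ : Type*} [Fintype κ] (v : κ → E) (hv : ∀ i, ‖v i‖ = 1)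
    (R : ℝ) (H : Long v R) (x : κ → ℝ) (hx : ∀ i, |x i| ≤ 1) (h0 : ∑ i, x i • v i = 0) :
    R < ∑ i ∈ fr x, (1 - x i ^ 2) := by
  classical
  obtain ⟨η, hη, hle⟩ := rounding v x hx
  have h := H η hη
  rw [h0, norm_zero] at hle
  have h1 : ∑ i, (1 - x i ^ 2) * ‖v i‖ ^ 2 = ∑ i ∈ fr x, (1 - x i ^ 2) := by
    symm
    have : ∑ i ∈ fr x, (1 - x i ^ 2) = ∑ i ∈ fr x, (1 - x i ^ 2) * ‖v i‖ ^ 2 := by
      refine Finset.sum_congr rfl fun i _ => ?_
      rw [hv i]; ring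
    rw [this]
    apply Finset.sum_subset (Finset.subset_univ _)
    intro i _ hi
    rcases (not_mem_fr x hx i).mp hi with h | h <;> simp [h]
  rw [h1] at hle
  have h5 : (0 : ℝ) ^ 2 = 0 := by norm_num
  rw [h5, zero_add] at hle
  exact lt_of_lt_of_le h hle

/-- Under `Long v (d - δ)` with `δ ≤ 1`, every fractional solution has at least `d` free
coordinates. -/
theorem long_card {κ : Type*} [Fintype κ] [FiniteDimensional ℝ E] (v : κ → E)
    (hv : ∀ i, ‖v i‖ = 1) (δ : ℝ) (hδ : δ ≤ 1)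
    (H : Long v (Module.finrank ℝ E - δ)) (x : κ → ℝ)
    (hx : ∀ i, |x i| ≤ 1) (h0 : ∑ i, x i • v i = 0) :
    Module.finrank ℝ E ≤ (fr x).card := by
  have h := long_round v hv _ H x hx h0
  have h2 : ∑ i ∈ fr x, (1 - x i ^ 2) ≤ ((fr x).card : ℝ) := by
    have : ∑ i ∈ fr x, (1 - x i ^ 2) ≤ ∑ i ∈ fr x, (1 : ℝ) :=
      Finset.sum_le_sum fun i _ => by nlinarith [sq_nonneg (x i)]
    rw [Finset.sum_const, nsmul_eq_mul, mul_one] at this
    exact this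
  by_contra hcon
  push Not at hcon
  have h3 : ((fr x).card : ℝ) + 1 ≤ Module.finrank ℝ E := by exact_mod_cast hcon
  linarith

/-- Basic fractional solutions. -/
def Bas {κ : Type*} [Fintype κ] (v : κ → E) (x : κ → ℝ) : Prop :=
  (∀ i, |x i| ≤ 1) ∧ ∑ i, x i • v i = 0 ∧ (fr x).card = Module.finrank ℝ E

theorem bas_indep {κ : Type*} [Fintype κ] [FiniteDimensional ℝ E] (v : κ → E)
    (hv : ∀ i, ‖v i‖ = 1) (δ : ℝ) (hδ : δ ≤ 1)
    (H : Long v (Module.finrank ℝ E - δ)) (x : κ → ℝ) (hx : Bas v x) :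
    LinearIndepOn ℝ v (fr x : Set κ) := by
  by_contra hcon
  obtain ⟨x', h1, h2, h3⟩ := dep_move v x hx.1 hx.2.1 hcon
  have h4 := long_card v hv δ hδ H x' h1 h2
  have h5 := Finset.card_lt_card h3
  rw [hx.2.2] at h5
  omega

theorem bas_exists {κ : Type*} [Fintype κ] [FiniteDimensional ℝ E] (v : κ → E)
    (hv : ∀ i, ‖v i‖ = 1) (δ : ℝ) (hδ : δ ≤ 1)
    (H : Long v (Module.finrank ℝ E - δ)) : ∃ x, Bas v x := by
  obtain ⟨x, hx, h0, hli, -⟩ := lp v (fun _ => 0) (by simp) (by simp)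
  exact ⟨x, hx, h0, le_antisymm (card_le_of_indep v _ hli) (long_card v hv δ hδ H x hx h0)⟩

/-- The rounded part of a fractional solution. -/
noncomputable def cc {κ : Type*} [Fintype κ] (v : κ → E) (x : κ → ℝ) : E :=
  -∑ i ∈ fr x, x i • v i

/-- Substituting signs on the free coordinates. -/
theorem long_sub {κ : Type*} [Fintype κ] (v : κ → E)
    (R : ℝ) (H : Long v R) (x : κ → ℝ) (hx : ∀ i, |x i| ≤ 1) (h0 : ∑ i, x i • v i = 0)
    (ε : κ → ℝ) (hε : ∀ i, ε i = 1 ∨ ε i = -1) :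
    R < ‖cc v x + ∑ i ∈ fr x, ε i • v i‖ ^ 2 := by
  classical
  set η : κ → ℝ := fun i => if i ∈ fr x then ε i else x i with hη
  have h1 : ∀ i, η i = 1 ∨ η i = -1 := by
    intro i
    by_cases h : i ∈ fr x
    · simp [hη, h, hε i]
    · have := (not_mem_fr x hx i).mp h
      simp only [hη, if_neg h]; exact this
  have h2 := H η h1
  have h3 : ∑ i, η i • v i = cc v x + ∑ i ∈ fr x, ε i • v i := by
    rw [sum_fr v x] at h0
    have h4 : ∑ i, η i • v i = ∑ i ∈ fr x, ε i • v i + ∑ i ∈ (fr x)ᶜ, x i • v i := by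
      rw [← Finset.sum_add_sum_compl (fr x)]
      congr 1
      · refine Finset.sum_congr rfl fun i hi => ?_
        simp [hη, hi]
      · refine Finset.sum_congr rfl fun i hi => ?_
        rw [Finset.mem_compl] at hi
        simp [hη, hi]
    rw [h4, cc, eq_neg_of_add_eq_zero_left h0]
    simp only [neg_neg]
    abel
  rw [h3] at h2
  exact h2

/-- Estimate (A). -/
theorem estA {κ : Type*} [Fintype κ] [FiniteDimensional ℝ E] (v : κ → E)
    (hv : ∀ i, ‖v i‖ = 1) (δ : ℝ)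
    (H : Long v (Module.finrank ℝ E - δ)) (x : κ → ℝ) (hx : Bas v x) :
    0 ≤ -‖cc v x‖ ^ 2 - 2 * (∑ i ∈ fr x, x i ^ 2) + (‖cc v x‖ ^ 2) * (∑ i ∈ fr x, x i ^ 2)
      + δ + δ * (∑ i ∈ fr x, x i ^ 2) := by
  classical
  obtain ⟨ε, hε, hle⟩ := kernel_aux v x (Module.finrank ℝ E - δ) (fr x) 1 (cc v x)
  have h1 := long_sub v _ H x hx.1 hx.2.1 ε hε
  have h2 : ∑ i ∈ fr x, x i • v i = - cc v x := by simp [cc]
  have h3 : ∑ i ∈ fr x, ‖v i‖ ^ 2 = Module.finrank ℝ E := by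
    simp [hv, hx.2.2]
  have h4 : ∑ i ∈ fr x, x i ^ 2 * ‖v i‖ ^ 2 = ∑ i ∈ fr x, x i ^ 2 := by
    refine Finset.sum_congr rfl fun i _ => ?_
    rw [hv i]; ring
  rw [h2, h3, h4, norm_neg, inner_neg_right, real_inner_self_eq_norm_sq] at hle
  have h5 : 0 ≤ (1 + ∑ i ∈ fr x, ε i * x i) ^ 2 *
      (‖cc v x + ∑ i ∈ fr x, ε i • v i‖ ^ 2 - (Module.finrank ℝ E - δ)) :=
    mul_nonneg (sq_nonneg _) (by linarith)
  nlinarith

/-- Estimate (B). -/
theorem estB {κ : Type*} [Fintype κ] [FiniteDimensional ℝ E] (v : κ → E)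
    (hv : ∀ i, ‖v i‖ = 1) (δ : ℝ)
    (H : Long v (Module.finrank ℝ E - δ)) (x : κ → ℝ) (hx : Bas v x) :
    ∃ g : ℝ, 0 ≤ g ∧ 9 * g ≤ 8 * (δ + ‖cc v x‖ ^ 2) ∧
      (‖cc v x‖ ^ 2) ^ 2 ≤ (∑ i ∈ fr x, x i ^ 2) * g ^ 2 := by
  classical
  set c := cc v x with hc
  set y : κ → ℝ := fun i => inner ℝ c (v i) with hy
  set G : ℝ := ∑ i ∈ fr x, y i ^ 2 with hG
  have hG0 : 0 ≤ G := Finset.sum_nonneg fun i _ => sq_nonneg _
  have hCS : (‖c‖ ^ 2) ^ 2 ≤ (∑ i ∈ fr x, x i ^ 2) * G := by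
    have h1 : ∑ i ∈ fr x, x i * y i = - ‖c‖ ^ 2 := by
      have : ∑ i ∈ fr x, x i * y i = inner ℝ c (∑ i ∈ fr x, x i • v i) := by
        rw [inner_sum]
        refine Finset.sum_congr rfl fun i _ => ?_
        rw [inner_smul_right]
      rw [this]
      have h2 : ∑ i ∈ fr x, x i • v i = - c := by simp [hc, cc]
      rw [h2, inner_neg_right, real_inner_self_eq_norm_sq]
    have h3 := Finset.sum_mul_sq_le_sq_mul_sq (fr x) x y
    rw [h1] at h3
    nlinarith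
  refine ⟨Real.sqrt G, Real.sqrt_nonneg _, ?_, by rwa [Real.sq_sqrt hG0]⟩
  rcases eq_or_lt_of_le hG0 with hz | hpos
  · rw [← hz]
    simp only [Real.sqrt_zero, mul_zero]
    -- any signing gives `δ + ‖c‖² ≥ 0`
    have hc0 : ‖c‖ ^ 2 = 0 := by
      rw [← hz] at hCS
      have : (‖c‖ ^ 2) ^ 2 ≤ 0 := by simpa using hCS
      nlinarith [sq_nonneg (‖c‖ ^ 2)]
    have hr := long_round v hv _ H x hx.1 hx.2.1
    have h2 : ∑ i ∈ fr x, (1 - x i ^ 2) ≤ ((fr x).card : ℝ) := by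
      have : ∑ i ∈ fr x, (1 - x i ^ 2) ≤ ∑ i ∈ fr x, (1 : ℝ) :=
        Finset.sum_le_sum fun i _ => by nlinarith [sq_nonneg (x i)]
      rw [Finset.sum_const, nsmul_eq_mul, mul_one] at this
      exact this
    rw [hx.2.2] at h2
    nlinarith
  · set g := Real.sqrt G with hg
    have hgpos : 0 < g := Real.sqrt_pos.mpr hpos
    have hg2 : g ^ 2 = G := Real.sq_sqrt hG0
    obtain ⟨ε, hε, hle⟩ := quartic_aux v y (3 / (2 * g)) (1 / (8 * g ^ 3)) (fr x) 0 0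
    set Y : ℝ := ∑ i ∈ fr x, ε i * y i with hY
    have hYi : Y = inner ℝ c (∑ i ∈ fr x, ε i • v i) := by
      rw [inner_sum]
      refine Finset.sum_congr rfl fun i _ => ?_
      rw [inner_smul_right]
    have h3 : ∑ i ∈ fr x, ‖v i‖ ^ 2 = Module.finrank ℝ E := by
      simp [hv, hx.2.2]
    have hp := long_sub v _ H x hx.1 hx.2.1 ε hε
    have hm := long_sub v _ H x hx.1 hx.2.1 (fun i => - ε i)
      (fun i => by rcases hε i with h | h <;> simp [h])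
    have e1 : ‖c + ∑ i ∈ fr x, ε i • v i‖ ^ 2
        = ‖c‖ ^ 2 + 2 * Y + ‖∑ i ∈ fr x, ε i • v i‖ ^ 2 := by
      rw [norm_add_sq_real, hYi]
    have e2 : ‖c + ∑ i ∈ fr x, (- ε i) • v i‖ ^ 2
        = ‖c‖ ^ 2 - 2 * Y + ‖∑ i ∈ fr x, ε i • v i‖ ^ 2 := by
      have : ∑ i ∈ fr x, (- ε i) • v i = - ∑ i ∈ fr x, ε i • v i := by
        simp [Finset.sum_neg_distrib]
      rw [this, norm_add_sq_real, inner_neg_right, norm_neg, hYi]
      ring
    rw [← hc, e1] at hp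
    rw [← hc, e2] at hm
    -- pointwise inequality `2|Y| ≥ p Y² - q Y⁴`
    have hpt : ∀ w : ℝ, 0 ≤ w → 3 / (2 * g) * w ^ 2 - 1 / (8 * g ^ 3) * w ^ 4 ≤ 2 * w := by
      intro w hw
      have hid : 2 * w - (3 / (2 * g) * w ^ 2 - 1 / (8 * g ^ 3) * w ^ 4)
          = w * ((w - 2 * g) ^ 2 * (w + 4 * g)) / (8 * g ^ 3) := by
        field_simp
        ring
      have : 0 ≤ w * ((w - 2 * g) ^ 2 * (w + 4 * g)) / (8 * g ^ 3) := by positivity
      linarith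
    have hpt2 := hpt |Y| (abs_nonneg _)
    rw [sq_abs] at hpt2
    have hab4 : |Y| ^ 4 = Y ^ 4 := by
      have : |Y| ^ 4 = (|Y| ^ 2) ^ 2 := by ring
      rw [this, sq_abs]; ring
    rw [hab4] at hpt2
    have hlow : (Module.finrank ℝ E : ℝ) - δ - ‖c‖ ^ 2 + 2 * |Y| < ‖∑ i ∈ fr x, ε i • v i‖ ^ 2 := by
      rcases abs_cases Y with ⟨h, _⟩ | ⟨h, _⟩ <;> rw [h] <;> linarith
    simp only [zero_add, norm_zero, h3] at hle
    have hY4 : 0 ≤ ∑ i ∈ fr x, y i ^ 4 := Finset.sum_nonneg fun i _ => by positivity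
    rw [← hG] at hle
    have hq : 0 < 1 / (8 * g ^ 3) := by positivity
    have hle2 : (Module.finrank ℝ E : ℝ) - δ - ‖c‖ ^ 2
        ≤ Module.finrank ℝ E - 3 / (2 * g) * G + 1 / (8 * g ^ 3) * (3 * G ^ 2) := by
      have h7 : 0 ≤ 1 / (8 * g ^ 3) * ∑ i ∈ fr x, y i ^ 4 := by positivity
      nlinarith
    have e5 : 3 / (2 * g) * G = 3 / 2 * g := by
      rw [← hg2]; field_simp
    have e6 : 1 / (8 * g ^ 3) * (3 * G ^ 2) = 3 / 8 * g := by
      rw [← hg2]; field_simp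
    rw [e5, e6] at hle2
    linarith

/-- The rounded part of a basic solution is short: `‖c‖² < 1/6` when `δ = 1/3`. -/
theorem small_c {κ : Type*} [Fintype κ] [FiniteDimensional ℝ E] (v : κ → E)
    (hv : ∀ i, ‖v i‖ = 1)
    (H : Long v (Module.finrank ℝ E - 1 / 3)) (x : κ → ℝ) (hx : Bas v x) :
    ‖cc v x‖ ^ 2 < 1 / 6 := by
  have hA := estA v hv _ H x hx
  obtain ⟨g, hg0, hB, hC⟩ := estB v hv _ H x hx
  have hr := long_round v hv _ H x hx.1 hx.2.1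
  set s := ‖cc v x‖ ^ 2 with hs
  set t := ∑ i ∈ fr x, x i ^ 2 with ht
  have ht0 : 0 ≤ t := Finset.sum_nonneg fun i _ => sq_nonneg _
  have ht1 : t < 1 / 3 := by
    rw [Finset.sum_sub_distrib] at hr
    simp [hx.2.2] at hr
    linarith
  by_contra hcon
  push Not at hcon
  have h1 : t ≤ 1 / 9 := by nlinarith
  have h2 : (3 * s) ^ 2 ≤ g ^ 2 := by nlinarith [sq_nonneg g]
  have h3 : 3 * s ≤ g := by
    have := abs_le_of_sq_le_sq' h2 hg0
    exact this.2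
  linarith

end Pool.Agent.Lib.MP_1be6c9_co
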