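import Pool.Agent.Lib.MP_1be6c9_co.Basic

/-!
Fractional signings with zero sum, and moves along linear relations.
-/

namespace Pool.Agent.Lib.MP_1be6c9_co

open Finset

variable {E : Type*} [NormedAddCommGroup E] [InnerProductSpace ℝ E]

open scoped Classical in
/-- The free coordinates of a fractional signing. -/
noncomputable def fr {κ : Type*} [Fintype κ] (x : κ → ℝ) : Finset κ :=
  Finset.univ.filter (fun i => |x i| < 1)

theorem mem_fr {κ : Type*} [Fintype κ] (x : κ → ℝ) (i : κ) : i ∈ fr x ↔ |x i| < 1 := by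
  simp [fr]

theorem not_mem_fr {κ : Type*} [Fintype κ] (x : κ → ℝ) (hx : ∀ i, |x i| ≤ 1) (i : κ) :
    i ∉ fr x ↔ (x i = 1 ∨ x i = -1) := by
  rw [mem_fr, not_lt]
  constructor
  · intro h
    have : |x i| = 1 := le_antisymm (hx i) h
    exact eq_or_eq_neg_of_abs_eq this
  · rintro (h | h) <;> simp [h]

theorem move {κ : Type*} [Fintype κ] (x z : κ → ℝ) (hx : ∀ i, |x i| ≤ 1)
    (h1 : ∀ i, x i = 1 → z i ≤ 0) (h2 : ∀ i, x i = -1 → 0 ≤ z i) (hz : ∃ i, z i ≠ 0) :
    ∃ t : ℝ, 0 < t ∧ (∀ i, |x i + t * z i| ≤ 1) ∧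
      ∃ i, z i ≠ 0 ∧ ((0 < z i ∧ x i + t * z i = 1) ∨ (z i < 0 ∧ x i + t * z i = -1)) := by
  classical
  set T : κ → ℝ := fun i => if 0 < z i then (1 - x i) / z i else (1 + x i) / (- z i) with hT
  have hne : (Finset.univ.filter (fun i => z i ≠ 0)).Nonempty := by
    obtain ⟨i, hi⟩ := hz
    exact ⟨i, by simp [hi]⟩
  obtain ⟨i0, hi0, hmin⟩ := Finset.exists_min_image _ T hne
  have hi0' : z i0 ≠ 0 := by simpa using hi0
  have hxl : ∀ i, -1 ≤ x i := fun i => (abs_le.mp (hx i)).1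
  have hxu : ∀ i, x i ≤ 1 := fun i => (abs_le.mp (hx i)).2
  have hTpos : 0 < T i0 := by
    rcases lt_or_gt_of_ne hi0' with h | h
    · have : x i0 ≠ -1 := fun h' => absurd (h2 i0 h') (not_le.mpr h)
      have hlt : -1 < x i0 := lt_of_le_of_ne (hxl i0) (Ne.symm this)
      simp only [hT, if_neg (not_lt.mpr h.le)]
      apply div_pos <;> linarith
    · have : x i0 ≠ 1 := fun h' => absurd (h1 i0 h') (not_le.mpr h)
      have hlt : x i0 < 1 := lt_of_le_of_ne (hxu i0) this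
      simp only [hT, if_pos h]
      apply div_pos <;> linarith
  refine ⟨T i0, hTpos, ?_, i0, hi0', ?_⟩
  · intro i
    rcases lt_trichotomy (z i) 0 with h | h | h
    · have hm := hmin i (by simp [h.ne])
      have hTi : T i = (1 + x i) / (- z i) := by simp only [hT, if_neg (not_lt.mpr h.le)]
      have h3 : T i0 * (- z i) ≤ 1 + x i := by
        rw [hTi] at hm
        have hz' : 0 < - z i := by linarith
        exact (le_div_iff₀ hz').mp hm
      rw [abs_le]
      constructor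
      · nlinarith
      · nlinarith [mul_pos hTpos (by linarith : 0 < - z i), hxu i]
    · simp [h, hx i]
    · have hm := hmin i (by simp [h.ne'])
      have hTi : T i = (1 - x i) / (z i) := by simp only [hT, if_pos h]
      have h3 : T i0 * (z i) ≤ 1 - x i := by
        rw [hTi] at hm
        exact (le_div_iff₀ h).mp hm
      rw [abs_le]
      constructor
      · nlinarith [mul_pos hTpos h, hxl i]
      · nlinarith
  · rcases lt_or_gt_of_ne hi0' with h | h
    · right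
      refine ⟨h, ?_⟩
      simp only [hT, if_neg (not_lt.mpr h.le)]
      have : (1 + x i0) / (- z i0) * z i0 = -(1 + x i0) := by
        field_simp
      rw [this]; ring
    · left
      refine ⟨h, ?_⟩
      simp only [hT, if_pos h]
      have : (1 - x i0) / (z i0) * z i0 = (1 - x i0) := by
        field_simp
      rw [this]; ring

theorem sum_fr {κ : Type*} [Fintype κ] [DecidableEq κ] (a : κ → E) (x : κ → ℝ) :
    ∑ i, x i • a i = ∑ i ∈ fr x, x i • a i + ∑ i ∈ (fr x)ᶜ, x i • a i :=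
  (Finset.sum_add_sum_compl _ _).symm

theorem dep_move {κ : Type*} [Fintype κ] (a : κ → E) (x : κ → ℝ) (hx : ∀ i, |x i| ≤ 1)
    (h0 : ∑ i, x i • a i = 0) (hdep : ¬ LinearIndepOn ℝ a (fr x : Set κ)) :
    ∃ x' : κ → ℝ, (∀ i, |x' i| ≤ 1) ∧ ∑ i, x' i • a i = 0 ∧ fr x' ⊂ fr x := by
  classical
  rw [linearIndepOn_finset_iff] at hdep
  push Not at hdep
  obtain ⟨f, hf, i1, hi1, hfi1⟩ := hdep
  set z : κ → ℝ := fun i => if i ∈ fr x then f i else 0 with hz
  have hzsum : ∑ i, z i • a i = 0 := by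
    rw [← hf]
    simp only [hz, ite_smul, zero_smul]
    rw [Finset.sum_ite_mem, Finset.univ_inter]
  have hz1 : ∀ i, x i = 1 → z i ≤ 0 := by
    intro i hi
    have : i ∉ fr x := (not_mem_fr x hx i).mpr (Or.inl hi)
    simp [hz, this]
  have hz2 : ∀ i, x i = -1 → 0 ≤ z i := by
    intro i hi
    have : i ∉ fr x := (not_mem_fr x hx i).mpr (Or.inr hi)
    simp [hz, this]
  obtain ⟨t, ht, hc, j, hj, hj2⟩ := move x z hx hz1 hz2 ⟨i1, by simp [hz, hi1, hfi1]⟩
  refine ⟨fun i => x i + t * z i, hc, ?_, ?_⟩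
  · simp only [add_smul, mul_smul, Finset.sum_add_distrib, ← Finset.smul_sum, h0, hzsum]
    simp
  · rw [Finset.ssubset_iff_of_subset]
    · have hjx : j ∈ fr x := by
        by_contra hcon
        exact hj (by simp [hz, hcon])
      refine ⟨j, hjx, ?_⟩
      rw [mem_fr, not_lt]
      rcases hj2 with ⟨_, h⟩ | ⟨_, h⟩ <;> rw [h] <;> simp
    · intro i hi
      by_contra hcon
      rw [mem_fr] at hi hcon
      have : z i = 0 := by simp [hz, mem_fr, hcon]
      rw [this] at hi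
      simp at hi
      exact hcon hi

theorem lp_aux {κ : Type*} [Fintype κ] (a : κ → E) : ∀ (n : ℕ) (x : κ → ℝ),
    (fr x).card ≤ n → (∀ i, |x i| ≤ 1) → ∑ i, x i • a i = 0 →
    ∃ x' : κ → ℝ, (∀ i, |x' i| ≤ 1) ∧ ∑ i, x' i • a i = 0 ∧
      LinearIndepOn ℝ a (fr x' : Set κ) ∧ fr x' ⊆ fr x := by
  intro n
  induction n with
  | zero =>
    intro x hn hx h0
    have : fr x = ∅ := Finset.card_eq_zero.mp (Nat.le_zero.mp hn)
    refine ⟨x, hx, h0, ?_, subset_rfl⟩
    rw [this]; simp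
  | succ n ih =>
    intro x hn hx h0
    by_cases hli : LinearIndepOn ℝ a (fr x : Set κ)
    · exact ⟨x, hx, h0, hli, subset_rfl⟩
    · obtain ⟨x1, h1, h2, h3⟩ := dep_move a x hx h0 hli
      have := Finset.card_lt_card h3
      obtain ⟨x2, h4, h5, h6, h7⟩ := ih x1 (by omega) h1 h2
      exact ⟨x2, h4, h5, h6, h7.trans h3.subset⟩

theorem lp {κ : Type*} [Fintype κ] (a : κ → E) (x : κ → ℝ)
    (hx : ∀ i, |x i| ≤ 1) (h0 : ∑ i, x i • a i = 0) :
    ∃ x' : κ → ℝ, (∀ i, |x' i| ≤ 1) ∧ ∑ i, x' i • a i = 0 ∧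
      LinearIndepOn ℝ a (fr x' : Set κ) ∧ fr x' ⊆ fr x :=
  lp_aux a _ x le_rfl hx h0

theorem card_le_of_indep {κ : Type*} [Fintype κ] [FiniteDimensional ℝ E] (a : κ → E)
    (s : Finset κ) (h : LinearIndepOn ℝ a (s : Set κ)) : s.card ≤ Module.finrank ℝ E := by
  have := LinearIndependent.fintype_card_le_finrank (R := ℝ) (M := E) (b := fun i : s => a i) h
  simpa using this

/-- Signed sums of an arbitrary family: some signing has squared norm at most the sum of the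
squared norms of at most `d` members. -/
theorem lp_round {κ : Type*} [Fintype κ] [DecidableEq κ] [FiniteDimensional ℝ E] (a : κ → E) :
    ∃ (η : κ → ℝ) (F : Finset κ), (∀ i, η i = 1 ∨ η i = -1) ∧ F.card ≤ Module.finrank ℝ E ∧
      ‖∑ i, η i • a i‖ ^ 2 ≤ ∑ i ∈ F, ‖a i‖ ^ 2 := by
  obtain ⟨x, hx, h0, hli, -⟩ := lp a (fun _ => 0) (by simp) (by simp)
  obtain ⟨η, hη, hle⟩ := rounding a x hx
  refine ⟨η, fr x, hη, card_le_of_indep a _ hli, hle.trans ?_⟩
  rw [h0, norm_zero]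
  have h1 : ∑ i, (1 - x i ^ 2) * ‖a i‖ ^ 2 = ∑ i ∈ fr x, (1 - x i ^ 2) * ‖a i‖ ^ 2 := by
    symm
    apply Finset.sum_subset (Finset.subset_univ _)
    intro i _ hi
    rcases (not_mem_fr x hx i).mp hi with h | h <;> simp [h]
  rw [h1]
  have h2 : ∑ i ∈ fr x, (1 - x i ^ 2) * ‖a i‖ ^ 2 ≤ ∑ i ∈ fr x, ‖a i‖ ^ 2 := by
    apply Finset.sum_le_sum
    intro i _
    have : 0 ≤ x i ^ 2 * ‖a i‖ ^ 2 := by positivity
    nlinarith
  simpa using h2

end Pool.Agent.Lib.MP_1be6c9_co
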