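import Mathlib

/-!
# Weighted second moments of signed sums
-/

set_option autoImplicit false

namespace Pool.Agent.Lib.MP_1be6c9_co.RC

open Finset Matrix

/-- the sign of a boolean -/
def sg (b : Bool) : ℝ := if b then 1 else -1

theorem sg_sq (b : Bool) : sg b * sg b = 1 := by cases b <;> simp [sg]

theorem sg_not (b : Bool) : sg (!b) = - sg b := by cases b <;> simp [sg]

theorem sg_or (b : Bool) : sg b = 1 ∨ sg b = -1 := by cases b <;> simp [sg]

variable {ι : Type*} [DecidableEq ι]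

/-- change the sign at `i` -/
def fl (i : ι) (σ : ι → Bool) : ι → Bool := Function.update σ i (!σ i)

theorem fl_fl (i : ι) (σ : ι → Bool) : fl i (fl i σ) = σ := by
  unfold fl
  simp

theorem fl_same (i : ι) (σ : ι → Bool) : sg (fl i σ i) = - sg (σ i) := by
  unfold fl
  simp [sg_not]

theorem fl_ne {i j : ι} (h : j ≠ i) (σ : ι → Bool) : fl i σ j = σ j := by
  unfold fl
  simp [h]

variable [Fintype ι]

theorem sum_fl (i : ι) (f : (ι → Bool) → ℝ) : ∑ σ, f (fl i σ) = ∑ σ, f σ :=
  Equiv.sum_comp (Function.Involutive.toPerm (fl i) (fl_fl i)) f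

/-- sums with one sign changed -/
theorem sum_flip {M : Type*} [AddCommGroup M] [Module ℝ M] (i : ι) (σ : ι → Bool) (g : ι → M) :
    ∑ j, sg (fl i σ j) • g j = (∑ j, sg (σ j) • g j) - (2 * sg (σ i)) • g i := by
  have h : ∀ j, sg (fl i σ j) • g j = sg (σ j) • g j - (if j = i then (2 * sg (σ i)) • g i else 0) := by
    intro j
    by_cases hj : j = i
    · subst hj
      rw [fl_same, if_pos rfl, ← sub_smul]
      congr 1
      ring
    · rw [fl_ne hj, if_neg hj, sub_zero]
  rw [Finset.sum_congr rfl fun j _ => h j, Finset.sum_sub_distrib]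
  simp

variable {E : Type*} [NormedAddCommGroup E] [InnerProductSpace ℝ E]

/-- **Weighted second moment.** -/
theorem core (v : ι → E) (hv : ∀ i, ‖v i‖ = 1) (ψ : (ι → Bool) → ℝ) (c : ℝ)
    (ha : ∀ σ, ∑ i, ψ (fl i σ) = c * ψ σ)
    (hb : ∀ σ, ∑ i, (sg (σ i) * (ψ σ - ψ (fl i σ))) • v i = 0) :
    ∑ σ, ψ σ ^ 2 * ‖∑ i, sg (σ i) • v i‖ ^ 2 = c * ∑ σ, ψ σ ^ 2 := by
  set S : (ι → Bool) → E := fun σ => ∑ i, sg (σ i) • v i with hS
  have hSf : ∀ i σ, S (fl i σ) = S σ - (2 * sg (σ i)) • v i := fun i σ => sum_flip i σ v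
  -- symmetrisation
  have h1 : ∀ i, ∑ σ, sg (σ i) * ψ σ * ψ (fl i σ) * inner ℝ (S σ) (v i)
      = ∑ σ, ψ σ * ψ (fl i σ) := by
    intro i
    have h2 := sum_fl i (fun σ => sg (σ i) * ψ σ * ψ (fl i σ) * inner ℝ (S σ) (v i))
    have h3 : ∀ σ, (fun σ => sg (σ i) * ψ σ * ψ (fl i σ) * inner ℝ (S σ) (v i)) (fl i σ)
        = - (sg (σ i) * ψ σ * ψ (fl i σ) * inner ℝ (S σ) (v i)) + 2 * (ψ σ * ψ (fl i σ)) := by
      intro σ
      simp only [fl_fl, fl_same, hSf]
      rw [inner_sub_left, real_inner_smul_left, real_inner_self_eq_norm_sq, hv i]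
      linear_combination (2 * ψ σ * ψ (fl i σ)) * sg_sq (σ i)
    rw [Finset.sum_congr rfl fun σ _ => h3 σ, Finset.sum_add_distrib, Finset.sum_neg_distrib,
      ← Finset.mul_sum] at h2
    linarith
  have h4 : ∀ σ, ψ σ ^ 2 * ‖S σ‖ ^ 2
      = ∑ i, sg (σ i) * ψ σ * ψ (fl i σ) * inner ℝ (S σ) (v i) := by
    intro σ
    have h5 : inner ℝ (S σ) (∑ i, (sg (σ i) * (ψ σ - ψ (fl i σ))) • v i) = 0 := by
      rw [hb σ, inner_zero_right]
    rw [inner_sum] at h5
    have h6 : ‖S σ‖ ^ 2 = ∑ i, sg (σ i) * inner ℝ (S σ) (v i) := by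
      rw [← real_inner_self_eq_norm_sq]
      conv_lhs => rw [hS]
      rw [inner_sum]
      exact Finset.sum_congr rfl fun i _ => by rw [real_inner_smul_right]
    rw [h6, Finset.mul_sum]
    have h7 : ∑ i, (ψ σ ^ 2 * (sg (σ i) * inner ℝ (S σ) (v i))
        - sg (σ i) * ψ σ * ψ (fl i σ) * inner ℝ (S σ) (v i)) = 0 := by
      rw [← mul_zero (ψ σ), ← h5, Finset.mul_sum]
      refine Finset.sum_congr rfl fun i _ => ?_
      rw [real_inner_smul_right]
      ring
    rw [Finset.sum_sub_distrib] at h7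
    linarith
  rw [Finset.sum_congr rfl fun σ _ => h4 σ, Finset.sum_comm, Finset.sum_congr rfl fun i _ => h1 i,
    Finset.sum_comm, Finset.mul_sum]
  refine Finset.sum_congr rfl fun σ _ => ?_
  rw [← Finset.mul_sum, ha]
  ring

/-- A nonzero weight function gives a short signed sum. -/
theorem exists_of_weight (v : ι → E) (hv : ∀ i, ‖v i‖ = 1) (ψ : (ι → Bool) → ℝ) (c : ℝ)
    (ha : ∀ σ, ∑ i, ψ (fl i σ) = c * ψ σ)
    (hb : ∀ σ, ∑ i, (sg (σ i) * (ψ σ - ψ (fl i σ))) • v i = 0) (hne : ∃ σ, ψ σ ≠ 0) :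
    ∃ σ : ι → Bool, ‖∑ i, sg (σ i) • v i‖ ^ 2 ≤ c := by
  by_contra hcon
  push Not at hcon
  have h := core v hv ψ c ha hb
  obtain ⟨σ₀, h0⟩ := hne
  have h2 : c * ∑ σ, ψ σ ^ 2 < ∑ σ, ψ σ ^ 2 * ‖∑ i, sg (σ i) • v i‖ ^ 2 := by
    rw [Finset.mul_sum]
    refine Finset.sum_lt_sum (fun σ _ => ?_) ⟨σ₀, Finset.mem_univ _, ?_⟩
    · rw [mul_comm]
      exact mul_le_mul_of_nonneg_left (hcon σ).le (sq_nonneg _)
    · rw [mul_comm]
      exact mul_lt_mul_of_pos_left (hcon σ₀) (by positivity)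
  linarith

/-- plain averaging -/
theorem exists_avg (v : ι → E) (hv : ∀ i, ‖v i‖ = 1) :
    ∃ σ : ι → Bool, ‖∑ i, sg (σ i) • v i‖ ^ 2 ≤ Fintype.card ι :=
  exists_of_weight v hv (fun _ => 1) _ (fun σ => by simp) (fun σ => by simp)
    ⟨fun _ => true, one_ne_zero⟩

/-- the matrix determinant lemma, without invertibility -/
theorem det_rank_one {κ : Type*} [Fintype κ] [DecidableEq κ] (A : Matrix κ κ ℝ) (u w : κ → ℝ) :
    (A + vecMulVec u w).det = A.det + w ⬝ᵥ (A.adjugate *ᵥ u) := by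
  -- invertible case
  have h1 : ∀ B : Matrix κ κ ℝ, B.det ≠ 0 →
      (B + vecMulVec u w).det = B.det + w ⬝ᵥ (B.adjugate *ᵥ u) := by
    intro B hB
    have h := det_add_replicateCol_mul_replicateRow (ι := Unit) (isUnit_iff_ne_zero.2 hB) u w
    have h2 : replicateCol Unit u * replicateRow Unit w = vecMulVec u w := by
      ext i j
      simp [vecMulVec_apply, Matrix.mul_apply]
    rw [h2] at h
    rw [h, det_unique (1 + replicateRow Unit w * B⁻¹ * replicateCol Unit u), Matrix.add_apply, Matrix.one_apply_eq, Matrix.inv_def, Ring.inverse_eq_inv',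
      mul_add, mul_one]
    congr 1
    rw [Matrix.mul_smul, Matrix.smul_mul, Matrix.smul_apply, smul_eq_mul, ← mul_assoc,
      mul_inv_cancel₀ hB, one_mul, Matrix.mul_apply]
    simp only [replicateCol_apply, dotProduct, mulVec, Matrix.mul_apply, replicateRow_apply,
      Finset.sum_mul, Finset.mul_sum]
    rw [Finset.sum_comm]
    exact Finset.sum_congr rfl fun i _ => Finset.sum_congr rfl fun j _ => by ring
  -- density
  have hc1 : Continuous fun t : ℝ => ((A + t • (1 : Matrix κ κ ℝ)) + vecMulVec u w).det := by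
    fun_prop
  have hc2 : Continuous fun t : ℝ => (A + t • (1 : Matrix κ κ ℝ)).det
      + w ⬝ᵥ ((A + t • (1 : Matrix κ κ ℝ)).adjugate *ᵥ u) := by
    fun_prop
  have hfin : {t : ℝ | (A + t • (1 : Matrix κ κ ℝ)).det = 0}.Finite := by
    have h3 : {t : ℝ | (A + t • (1 : Matrix κ κ ℝ)).det = 0} ⊆ ((-A).charpoly.roots.toFinset : Set ℝ) := by
      intro t ht
      simp only [Finset.mem_coe, Multiset.mem_toFinset]
      rw [Polynomial.mem_roots (Matrix.charpoly_monic _).ne_zero, Polynomial.IsRoot,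
        Matrix.eval_charpoly]
      have : (scalar κ t - -A) = A + t • (1 : Matrix κ κ ℝ) := by
        rw [sub_neg_eq_add, add_comm, scalar_apply, smul_one_eq_diagonal]
      rw [this]
      exact ht
    exact (Finset.finite_toSet _).subset h3
  have hd : Dense {t : ℝ | (A + t • (1 : Matrix κ κ ℝ)).det = 0}ᶜ := hfin.countable.dense_compl ℝ
  have h4 := Continuous.ext_on hd hc1 hc2 (fun t ht => h1 _ ht)
  have h5 := congrFun h4 0
  simpa using h5

variable {κ : Type*} [Fintype κ] [DecidableEq κ]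

/-- the pencil of rank one matrices -/
noncomputable def pen (u w : ι → κ → ℝ) (x : ι → ℝ) : Matrix κ κ ℝ :=
  ∑ i, x i • vecMulVec (u i) (w i)

omit [DecidableEq κ] in
theorem quad_vecMulVec (u w z : κ → ℝ) :
    z ⬝ᵥ (vecMulVec u w *ᵥ z) = (z ⬝ᵥ u) * (w ⬝ᵥ z) := by
  simp only [dotProduct, mulVec, vecMulVec_apply, Finset.mul_sum, Finset.sum_mul]
  rw [Finset.sum_comm]
  exact Finset.sum_congr rfl fun i _ => Finset.sum_congr rfl fun j _ => by ring

omit [Fintype κ] [DecidableEq κ] in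
theorem pen_update (u w : ι → κ → ℝ) (x : ι → ℝ) (i : ι) (t : ℝ) :
    pen u w (Function.update x i t) = pen u w x + vecMulVec ((t - x i) • u i) (w i) := by
  have h : ∀ j, Function.update x i t j • vecMulVec (u j) (w j) = x j • vecMulVec (u j) (w j)
      + (if j = i then (t - x i) • vecMulVec (u i) (w i) else 0) := by
    intro j
    by_cases hj : j = i
    · subst hj
      rw [Function.update_self, if_pos rfl, ← add_smul]
      congr 1
      ring
    · rw [Function.update_of_ne hj, if_neg hj, add_zero]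
  unfold pen
  rw [Finset.sum_congr rfl fun j _ => h j, Finset.sum_add_distrib]
  simp

theorem det_pen_update (u w : ι → κ → ℝ) (x : ι → ℝ) (i : ι) (t : ℝ) :
    (pen u w (Function.update x i t)).det = (pen u w x).det
      + (t - x i) * (w i ⬝ᵥ ((pen u w x).adjugate *ᵥ (u i))) := by
  rw [pen_update, det_rank_one, mulVec_smul, dotProduct_smul, smul_eq_mul]

/-- a function which is affine in each coordinate and vanishes on the cube vanishes -/
theorem pen_eq_zero (u w : ι → κ → ℝ) (h : ∀ σ : ι → Bool, (pen u w fun i => sg (σ i)).det = 0)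
    (x : ι → ℝ) : (pen u w x).det = 0 := by
  have key : ∀ T : Finset ι, ∀ x : ι → ℝ, (∀ j, j ∉ T → x j = 1 ∨ x j = -1) →
      (pen u w x).det = 0 := by
    intro T
    induction T using Finset.induction_on with
    | empty =>
      intro x hx
      have h2 : x = fun i => sg (decide (x i = 1)) := by
        funext i
        rcases hx i (Finset.notMem_empty i) with h3 | h3
        · simp [h3, sg]
        · rw [h3]
          norm_num [sg]
      rw [h2]
      exact h _
    | insert i T hi ih =>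
      intro x hx
      have h1 := ih (Function.update x i 1) (fun j hj => by
        by_cases hji : j = i
        · subst hji; simp
        · rw [Function.update_of_ne hji]
          exact hx j (by simp [hji, hj]))
      have h2 := ih (Function.update x i (-1)) (fun j hj => by
        by_cases hji : j = i
        · subst hji; simp
        · rw [Function.update_of_ne hji]
          exact hx j (by simp [hji, hj]))
      rw [det_pen_update] at h1 h2
      linear_combination (1 + x i) / 2 * h1 + (1 - x i) / 2 * h2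
  exact key Finset.univ x fun j hj => absurd (Finset.mem_univ j) hj

/-- **Theorem A.** -/
theorem exists_of_pencil (v : ι → E) (hv : ∀ i, ‖v i‖ = 1) (u w : ι → κ → ℝ)
    (h0 : ∀ a b, ∑ i, (u i a * w i b) • v i = 0) (x : ι → ℝ) (hx : (pen u w x).det ≠ 0) :
    ∃ σ : ι → Bool, ‖∑ i, sg (σ i) • v i‖ ^ 2 ≤ (Fintype.card ι : ℝ) - 2 * Fintype.card κ := by
  have hupd : ∀ (σ : ι → Bool) (i : ι),
      (fun j => sg (fl i σ j)) = Function.update (fun j => sg (σ j)) i (- sg (σ i)) := by
    intro σ i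
    funext j
    by_cases hj : j = i
    · subst hj; rw [fl_same, Function.update_self]
    · rw [fl_ne hj, Function.update_of_ne hj]
  have hfl : ∀ (σ : ι → Bool) (i : ι), (pen u w fun j => sg (fl i σ j)).det
      = (pen u w fun j => sg (σ j)).det
        - 2 * sg (σ i) * (w i ⬝ᵥ ((pen u w fun j => sg (σ j)).adjugate *ᵥ (u i))) := by
    intro σ i
    rw [hupd, det_pen_update]
    ring
  refine exists_of_weight v hv (fun σ => (pen u w fun i => sg (σ i)).det) _ ?_ ?_ ?_
  · intro σ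
    simp only [hfl]
    rw [Finset.sum_sub_distrib]
    simp only [Finset.sum_const, Finset.card_univ, nsmul_eq_mul]
    have h1 : ∑ i, sg (σ i) * (w i ⬝ᵥ ((pen u w fun j => sg (σ j)).adjugate *ᵥ (u i)))
        = Fintype.card κ * (pen u w fun j => sg (σ j)).det := by
      set M := pen u w fun j => sg (σ j) with hM
      have h2 : (M.adjugate * M).trace = Fintype.card κ * M.det := by
        rw [adjugate_mul, trace_smul, trace_one, smul_eq_mul, mul_comm]
      have h4 : M.adjugate * M = M.adjugate * ∑ i, sg (σ i) • vecMulVec (u i) (w i) := rfl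
      rw [← h2, h4, Matrix.mul_sum, trace_sum]
      refine Finset.sum_congr rfl fun i _ => ?_
      rw [Matrix.mul_smul, trace_smul, smul_eq_mul]
      congr 1
      rw [mul_vecMulVec, trace_vecMulVec, dotProduct_comm]
    have h3 : ∑ i, 2 * sg (σ i) * (w i ⬝ᵥ ((pen u w fun j => sg (σ j)).adjugate *ᵥ (u i)))
        = 2 * ∑ i, sg (σ i) * (w i ⬝ᵥ ((pen u w fun j => sg (σ j)).adjugate *ᵥ (u i))) := by
      rw [Finset.mul_sum]
      exact Finset.sum_congr rfl fun i _ => by ring
    rw [h3, h1]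
    ring
  · intro σ
    simp only [hfl]
    set M := pen u w fun j => sg (σ j) with hM
    have h1 : ∀ i, (sg (σ i) * (M.det - (M.det - 2 * sg (σ i) * (w i ⬝ᵥ (M.adjugate *ᵥ (u i)))))) • v i
        = ∑ b, ∑ a, (2 * M.adjugate b a) • ((u i a * w i b) • v i) := by
      intro i
      have h2 : sg (σ i) * (M.det - (M.det - 2 * sg (σ i) * (w i ⬝ᵥ (M.adjugate *ᵥ (u i)))))
          = ∑ b, ∑ a, (2 * M.adjugate b a) * (u i a * w i b) := by
        have h3 : sg (σ i) * (M.det - (M.det - 2 * sg (σ i) * (w i ⬝ᵥ (M.adjugate *ᵥ (u i)))))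
          = 2 * (w i ⬝ᵥ (M.adjugate *ᵥ (u i))) := by
          linear_combination (2 * (w i ⬝ᵥ (M.adjugate *ᵥ (u i)))) * sg_sq (σ i)
        rw [h3, dotProduct, Finset.mul_sum]
        refine Finset.sum_congr rfl fun b _ => ?_
        rw [mulVec, dotProduct, Finset.mul_sum, Finset.mul_sum]
        exact Finset.sum_congr rfl fun a _ => by ring
      rw [h2, Finset.sum_smul]
      refine Finset.sum_congr rfl fun b _ => ?_
      rw [Finset.sum_smul]
      exact Finset.sum_congr rfl fun a _ => by rw [mul_smul]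
    rw [Finset.sum_congr rfl fun i _ => h1 i, Finset.sum_comm]
    refine Finset.sum_eq_zero fun b _ => ?_
    rw [Finset.sum_comm]
    refine Finset.sum_eq_zero fun a _ => ?_
    rw [← Finset.smul_sum, h0, smul_zero]
  · by_contra hcon
    push Not at hcon
    exact hx (pen_eq_zero u w hcon x)

/-! ### Polynomial curves -/

open Polynomial

/-- divided differences annihilate low powers -/
theorem divided (t : ι → ℝ) (ht : Function.Injective t) (k : ℕ) (hk : k + 1 < Fintype.card ι) :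
    ∑ i, t i ^ k / ∏ j ∈ Finset.univ.erase i, (t i - t j) = 0 := by
  have h := Lagrange.coeff_eq_sum (s := (Finset.univ : Finset ι)) (v := t) ht.injOn
    (P := (X ^ k : ℝ[X])) (by
      rw [degree_X_pow, Finset.card_univ]
      exact_mod_cast (by omega : k < Fintype.card ι))
  rw [coeff_X_pow, if_neg (by rw [Finset.card_univ]; omega)] at h
  rw [h]
  simp

/-- the case of distinct finite parameters -/
theorem curve_distinct (D : ℕ) (hD : D % 2 = Fintype.card ι % 2) (a : Fin (D + 1) → E) (t : ι → ℝ)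
    (ht : Function.Injective t) (v : ι → E) (hv : ∀ i, ‖v i‖ = 1) (c : ι → ℝ)
    (hc : ∀ i, v i = c i • ∑ j : Fin (D + 1), t i ^ (j : ℕ) • a j) :
    ∃ σ : ι → Bool, ‖∑ i, sg (σ i) • v i‖ ^ 2 ≤ D := by
  set n := Fintype.card ι with hn
  rcases Nat.lt_or_ge n D with hlt | hge
  · obtain ⟨σ, hσ⟩ := exists_avg v hv
    refine ⟨σ, hσ.trans ?_⟩
    exact_mod_cast hlt.le
  obtain ⟨q, hq⟩ : ∃ q, n = D + 2 * q := ⟨(n - D) / 2, by omega⟩
  have hcne : ∀ i, c i ≠ 0 := by
    intro i hi
    have := hv i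
    rw [hc i, hi, zero_smul, norm_zero] at this
    exact zero_ne_one this
  set ρ : ι → ℝ := fun i => 1 / (c i * ∏ j ∈ Finset.univ.erase i, (t i - t j)) with hρ
  have hρne : ∀ i, ρ i ≠ 0 := by
    intro i
    refine div_ne_zero one_ne_zero (mul_ne_zero (hcne i) ?_)
    refine Finset.prod_ne_zero_iff.2 fun j hj => sub_ne_zero.2 fun h => ?_
    exact (Finset.ne_of_mem_erase hj) (ht h).symm
  have key := exists_of_pencil (κ := Fin q) v hv (fun i a => ρ i * t i ^ (a : ℕ))
    (fun i b => t i ^ (b : ℕ)) ?_ (fun i => 1 / ρ i) ?_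
  · obtain ⟨σ, hσ⟩ := key
    refine ⟨σ, hσ.trans (le_of_eq ?_)⟩
    rw [Fintype.card_fin, ← hn, hq]
    push_cast
    ring
  · intro x y
    have h1 : ∀ i, (ρ i * t i ^ (x : ℕ) * t i ^ (y : ℕ)) • v i
        = ∑ j : Fin (D + 1), (t i ^ ((x : ℕ) + y + j) / ∏ l ∈ Finset.univ.erase i, (t i - t l)) • a j := by
      intro i
      rw [hc i, smul_smul, Finset.smul_sum]
      refine Finset.sum_congr rfl fun j _ => ?_
      rw [smul_smul]
      congr 1
      have h2 := hcne i
      simp only [hρ]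
      rw [pow_add, pow_add]
      field_simp
    rw [Finset.sum_congr rfl fun i _ => h1 i, Finset.sum_comm]
    refine Finset.sum_eq_zero fun j _ => ?_
    rw [← Finset.sum_smul, divided t ht _ (by rw [← hn]; omega), zero_smul]
  · intro hdet
    rw [← Matrix.exists_mulVec_eq_zero_iff] at hdet
    obtain ⟨z, hz, hz0⟩ := hdet
    apply hz
    have h1 : z ⬝ᵥ (pen (fun i (a : Fin q) => ρ i * t i ^ (a : ℕ)) (fun i b => t i ^ (b : ℕ))
        (fun i => 1 / ρ i) *ᵥ z) = ∑ i, (∑ a : Fin q, z a * t i ^ (a : ℕ)) ^ 2 := by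
      unfold pen
      rw [Matrix.sum_mulVec, dotProduct_sum]
      refine Finset.sum_congr rfl fun i _ => ?_
      rw [Matrix.smul_mulVec, dotProduct_smul, quad_vecMulVec]
      simp only [dotProduct, smul_eq_mul]
      have h2 : ∑ x, z x * (ρ i * t i ^ (x : ℕ)) = ρ i * ∑ x : Fin q, z x * t i ^ (x : ℕ) := by
        rw [Finset.mul_sum]
        exact Finset.sum_congr rfl fun x _ => by ring
      have h3 : ∑ x : Fin q, t i ^ (x : ℕ) * z x = ∑ x : Fin q, z x * t i ^ (x : ℕ) :=
        Finset.sum_congr rfl fun x _ => by ring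
      rw [h2, h3]
      have := hρne i
      field_simp
    rw [hz0, dotProduct_zero] at h1
    have h2 : ∀ i, (∑ a : Fin q, z a * t i ^ (a : ℕ)) = 0 := by
      intro i
      have := (Finset.sum_eq_zero_iff_of_nonneg (fun i _ => sq_nonneg _)).1 h1.symm i
        (Finset.mem_univ i)
      exact pow_eq_zero_iff (two_ne_zero) |>.1 this
    set P : ℝ[X] := ∑ a : Fin q, C (z a) * X ^ (a : ℕ) with hP
    have hP0 : P = 0 := by
      rcases Nat.eq_zero_or_pos q with h | h
      · subst h; simp [hP]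
      · refine Polynomial.eq_zero_of_natDegree_lt_card_of_eval_eq_zero P ht (fun i => ?_) ?_
        · rw [hP, eval_finsetSum]
          simp only [eval_mul, eval_C, eval_pow, eval_X]
          exact h2 i
        · refine lt_of_le_of_lt (natDegree_sum_le_of_forall_le _ _ (n := q - 1) fun a _ => ?_) ?_
          · refine (natDegree_C_mul_X_pow_le _ _).trans ?_
            have := a.2
            omega
          · rw [← hn]; omega
    funext a
    have h3 : P.coeff a = z a := by
      rw [hP, finsetSum_coeff]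
      simp only [coeff_C_mul_X_pow]
      rw [Finset.sum_eq_single a]
      · simp
      · intro b _ hb
        rw [if_neg]
        intro h; exact hb (Fin.ext h.symm)
      · intro h; exact absurd (Finset.mem_univ a) h
    rw [← h3, hP0]
    simp

/-! ### Closedness -/

open Filter Topology

/-- If arbitrarily small perturbations have short signed sums, so has the family itself. -/
theorem closed (v : ι → E) (D : ℝ) (V : ℝ → ι → E) (hV0 : V 0 = v)
    (hV : ∀ i, ContinuousAt (fun ε => V ε i) 0) (bad : Set ℝ) (hbad : bad.Finite)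
    (A : Set ℝ) (hA : A ∈ 𝓝 (0 : ℝ))
    (h : ∀ ε ∈ A, ε ∉ bad → ∃ σ : ι → Bool, ‖∑ i, sg (σ i) • V ε i‖ ^ 2 ≤ D) :
    ∃ σ : ι → Bool, ‖∑ i, sg (σ i) • v i‖ ^ 2 ≤ D := by
  by_contra hcon
  push Not at hcon
  have h1 : ∀ σ : ι → Bool, ∀ᶠ ε in 𝓝 (0 : ℝ), D < ‖∑ i, sg (σ i) • V ε i‖ ^ 2 := by
    intro σ
    have hc : ContinuousAt (fun ε => ‖∑ i, sg (σ i) • V ε i‖ ^ 2) 0 := by
      refine ContinuousAt.pow (ContinuousAt.norm ?_) 2
      exact tendsto_finsetSum _ fun i _ => ((hV i).const_smul (sg (σ i)))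
    have := hcon σ
    rw [← hV0] at this
    exact hc.eventually (lt_mem_nhds this)
  have h2 : ∀ᶠ ε in 𝓝 (0 : ℝ), ∀ σ : ι → Bool, D < ‖∑ i, sg (σ i) • V ε i‖ ^ 2 :=
    Filter.eventually_all.2 h1
  obtain ⟨ε, h3, h4⟩ := (infinite_of_mem_nhds (0 : ℝ) (Filter.inter_mem hA h2)).exists_notMem_finite
    hbad
  obtain ⟨σ, h5⟩ := h ε h3.1 h4
  exact absurd h5 (not_le.2 (h3.2 σ))

/-- normalised perturbations -/
theorem closed_dir (v : ι → E) (hv : ∀ i, ‖v i‖ = 1) (D : ℝ) (c : ι → ℝ) (p : ι → ℝ → E)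
    (hp : ∀ i, Continuous (p i)) (hc : ∀ i, v i = c i • p i 0) (bad : Set ℝ) (hbad : bad.Finite)
    (h : ∀ ε, ε ∉ bad → (∀ i, p i ε ≠ 0) → ∀ V : ι → E, (∀ i, ‖V i‖ = 1) →
      (∀ i, ∃ r : ℝ, V i = r • p i ε) → ∃ σ : ι → Bool, ‖∑ i, sg (σ i) • V i‖ ^ 2 ≤ D) :
    ∃ σ : ι → Bool, ‖∑ i, sg (σ i) • v i‖ ^ 2 ≤ D := by
  have hp0 : ∀ i, p i 0 ≠ 0 := by
    intro i hi
    have := hv i
    rw [hc i, hi, smul_zero, norm_zero] at this
    exact zero_ne_one this
  have hn : ∀ i, |c i| * ‖p i 0‖ = 1 := by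
    intro i
    have := hv i
    rwa [hc i, norm_smul, Real.norm_eq_abs] at this
  refine closed v D (fun ε i => (c i * ‖p i 0‖ / ‖p i ε‖) • p i ε) ?_ ?_ bad hbad
    (⋂ i, {ε | p i ε ≠ 0}) ?_ ?_
  · funext i
    rw [hc i]
    congr 1
    have := norm_ne_zero_iff.2 (hp0 i)
    field_simp
  · intro i
    refine ContinuousAt.smul (ContinuousAt.div continuousAt_const (hp i).norm.continuousAt ?_)
      (hp i).continuousAt
    exact norm_ne_zero_iff.2 (hp0 i)
  · refine Filter.iInter_mem.2 fun i => ?_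
    exact (hp i).continuousAt.eventually_ne (hp0 i)
  · intro ε hε hb
    have hε' : ∀ i, p i ε ≠ 0 := fun i => Set.mem_iInter.1 hε i
    refine h ε hb hε' _ (fun i => ?_) (fun i => ⟨_, rfl⟩)
    have h1 := norm_ne_zero_iff.2 (hε' i)
    rw [norm_smul, Real.norm_eq_abs, abs_div, abs_mul, abs_norm, abs_norm, hn i]
    field_simp

/-- a quadratic with nonzero leading coefficient has finitely many zeros -/
theorem finite_quad (A B C' : ℝ) (h : A ≠ 0) : {x : ℝ | A * x ^ 2 + B * x + C' = 0}.Finite := by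
  have h1 : (C A * X ^ 2 + C B * X + C C' : ℝ[X]) ≠ 0 := by
    intro h2
    have := congrArg (fun q : ℝ[X] => q.coeff 2) h2
    simp at this
    exact h this
  refine (Polynomial.finite_setOfPred_isRoot h1).subset fun x hx => ?_
  show (C A * X ^ 2 + C B * X + C C' : ℝ[X]).eval x = 0
  simpa using hx

/-- **Vectors on the cone over a polynomial curve.** -/
theorem curve_general (D : ℕ) (hD : D % 2 = Fintype.card ι % 2) (a : Fin (D + 1) → E)
    (s t c : ι → ℝ) (v : ι → E) (hv : ∀ i, ‖v i‖ = 1)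
    (hc : ∀ i, v i = c i • ∑ j : Fin (D + 1), (s i ^ (D - (j : ℕ)) * t i ^ (j : ℕ)) • a j) :
    ∃ σ : ι → Bool, ‖∑ i, sg (σ i) • v i‖ ^ 2 ≤ D := by
  set x : ι → ℝ := fun i => (Fintype.equivFin ι i : ℕ) with hx
  have hxi : ∀ i j, x i = x j → i = j := by
    intro i j h
    simp only [hx] at h
    have h2 : ((Fintype.equivFin ι i : Fin _) : ℕ) = (Fintype.equivFin ι j : ℕ) := by exact_mod_cast h
    exact (Fintype.equivFin ι).injective (Fin.ext h2)
  refine closed_dir v hv D c
    (fun i ε => ∑ j : Fin (D + 1), ((s i + ε) ^ (D - (j : ℕ)) * (t i + x i * ε) ^ (j : ℕ)) • a j)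
    (fun i => by fun_prop) (fun i => by rw [hc i]; simp)
    ((⋃ i, {ε | s i + ε = 0}) ∪ ⋃ q : {q : ι × ι // q.1 ≠ q.2},
      {ε | (t q.1.1 + x q.1.1 * ε) * (s q.1.2 + ε) = (t q.1.2 + x q.1.2 * ε) * (s q.1.1 + ε)})
    ?_ ?_
  · refine Set.Finite.union (Set.finite_iUnion fun i => ?_) (Set.finite_iUnion fun q => ?_)
    · refine (Set.finite_singleton (- s i)).subset fun ε hε => ?_
      have : s i + ε = 0 := hε
      exact Set.mem_singleton_iff.2 (by linarith)
    · refine (finite_quad (x q.1.1 - x q.1.2) (t q.1.1 - t q.1.2 + x q.1.1 * s q.1.2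
        - x q.1.2 * s q.1.1) (t q.1.1 * s q.1.2 - t q.1.2 * s q.1.1) ?_).subset fun ε hε => ?_
      · exact sub_ne_zero.2 fun h => q.2 (hxi _ _ h)
      · have h1 : (t q.1.1 + x q.1.1 * ε) * (s q.1.2 + ε) = (t q.1.2 + x q.1.2 * ε) * (s q.1.1 + ε) := hε
        show _ = _
        linear_combination h1
  · intro ε hε hne V hV hr
    rw [Set.mem_union, not_or] at hε
    have hs : ∀ i, s i + ε ≠ 0 := fun i h => hε.1 (Set.mem_iUnion.2 ⟨i, h⟩)
    have hst : ∀ i j, i ≠ j → (t i + x i * ε) * (s j + ε) ≠ (t j + x j * ε) * (s i + ε) :=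
      fun i j hij h => hε.2 (Set.mem_iUnion.2 ⟨⟨(i, j), hij⟩, h⟩)
    choose r hr using hr
    refine curve_distinct D hD a (fun i => (t i + x i * ε) / (s i + ε)) ?_ V hV
      (fun i => r i * (s i + ε) ^ D) ?_
    · intro i j hij
      by_contra h
      apply hst i j h
      have h1 := hs i
      have h2 := hs j
      exact (div_eq_div_iff h1 h2).1 hij
    · intro i
      rw [hr i, mul_smul, Finset.smul_sum (s := Finset.univ) (r := (s i + ε) ^ D)]
      congr 1
      refine Finset.sum_congr rfl fun j _ => ?_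
      rw [smul_smul]
      congr 1
      have h1 := hs i
      have h2 : (s i + ε) ^ D = (s i + ε) ^ (D - (j : ℕ)) * (s i + ε) ^ (j : ℕ) := by
        rw [← pow_add]
        congr 1
        have := j.2
        omega
      rw [h2, div_pow]
      field_simp

/-! ### Quadratic cones -/

/-- a round cone -/
theorem cone_round (hn : Fintype.card ι % 2 = 0) (e₀ e₁ e₂ : E) (x y z : ι → ℝ) (v : ι → E)
    (hv : ∀ i, ‖v i‖ = 1) (hve : ∀ i, v i = x i • e₀ + y i • e₁ + z i • e₂)
    (h : ∀ i, x i ^ 2 = y i ^ 2 + z i ^ 2) :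
    ∃ σ : ι → Bool, ‖∑ i, sg (σ i) • v i‖ ^ 2 ≤ 2 := by
  have key : ∀ i, ∃ s t c : ℝ, x i = c * (s ^ 2 + t ^ 2) ∧ y i = c * (s ^ 2 - t ^ 2) ∧
      z i = c * (2 * (s * t)) := by
    intro i
    by_cases h0 : x i + y i = 0
    · have h1 : z i = 0 := by
        have hxy : x i = - y i := by linarith
        have : z i ^ 2 = 0 := by
          have h2 := h i
          rw [hxy] at h2
          linear_combination -h2
        exact pow_eq_zero_iff two_ne_zero |>.1 this
      exact ⟨0, 1, x i, by ring, by linear_combination h0, by rw [h1]; ring⟩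
    · refine ⟨x i + y i, z i, 1 / (2 * (x i + y i)), ?_, ?_, ?_⟩
      · field_simp
        linear_combination h i
      · field_simp
        linear_combination -(h i)
      · field_simp
  choose s t c h1 h2 h3 using key
  have := curve_general 2 (by omega) ![e₀ + e₁, 2 • e₂, e₀ - e₁] s t c v hv ?_
  · simpa using this
  · intro i
    rw [hve i, Fin.sum_univ_three]
    simp only [Matrix.cons_val_zero, Matrix.cons_val_one, Matrix.cons_val_two, Matrix.head_cons,
      Matrix.tail_cons, Fin.val_zero, Fin.val_one, Fin.val_two]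
    rw [h1 i, h2 i, h3 i]
    module

/-- two planes -/
theorem cone_planes (hn : Fintype.card ι % 2 = 0) (e₀ e₁ e₂ : E) (x y z : ι → ℝ) (v : ι → E)
    (hv : ∀ i, ‖v i‖ = 1) (hve : ∀ i, v i = x i • e₀ + y i • e₁ + z i • e₂)
    (h : ∀ i, x i ^ 2 = y i ^ 2) :
    ∃ σ : ι → Bool, ‖∑ i, sg (σ i) • v i‖ ^ 2 ≤ 2 := by
  set δ : ι → ℝ := fun i => if 0 ≤ x i then 1 else -1 with hδ
  have hδ2 : ∀ i, δ i ^ 2 = 1 := by
    intro i
    simp only [hδ]
    split_ifs <;> norm_num
  have hδx : ∀ i, δ i * |x i| = x i := by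
    intro i
    simp only [hδ]
    split_ifs with h0
    · rw [abs_of_nonneg h0]; ring
    · rw [abs_of_neg (not_le.1 h0)]; ring
  refine closed_dir v hv 2 (fun _ => 1)
    (fun i ε => (δ i * √(y i ^ 2 + (ε * z i) ^ 2)) • e₀ + y i • e₁ + z i • e₂)
    (fun i => by fun_prop) (fun i => ?_) {0} (Set.finite_singleton 0) ?_
  · rw [hve i, one_smul]
    congr 3
    rw [zero_mul, zero_pow two_ne_zero, add_zero, ← h i, Real.sqrt_sq_eq_abs, hδx]
  · intro ε hε _ V hV hr
    have hε0 : ε ≠ 0 := hε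
    choose r hr using hr
    refine cone_round hn e₀ e₁ ((1 / ε) • e₂) (fun i => r i * (δ i * √(y i ^ 2 + (ε * z i) ^ 2)))
      (fun i => r i * y i) (fun i => r i * (ε * z i)) V hV (fun i => ?_) (fun i => ?_)
    · rw [hr i, smul_add, smul_add, smul_smul, smul_smul, smul_smul, smul_smul]
      congr 2
      field_simp
    · have h1 : 0 ≤ y i ^ 2 + (ε * z i) ^ 2 := by positivity
      have h2 := Real.sq_sqrt h1
      have h3 := hδ2 i
      calc (r i * (δ i * √(y i ^ 2 + (ε * z i) ^ 2))) ^ 2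
          = r i ^ 2 * δ i ^ 2 * √(y i ^ 2 + (ε * z i) ^ 2) ^ 2 := by ring
        _ = _ := by rw [h2, h3]; ring

end Pool.Agent.Lib.MP_1be6c9_co.RC
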