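import Pool.Agent.Lib.MP_1be6c9_co.Gap

/-!
Swapping free coordinates, independent sets, matchings, and the uniform bound.
-/

namespace Pool.Agent.Lib.MP_1be6c9_co

open Finset

variable {E : Type*} [NormedAddCommGroup E] [InnerProductSpace ℝ E]

theorem cc_eq {κ : Type*} [Fintype κ] [DecidableEq κ] (v : κ → E) (x : κ → ℝ)
    (h0 : ∑ i, x i • v i = 0) : cc v x = ∑ i ∈ (fr x)ᶜ, x i • v i := by
  rw [sum_fr v x] at h0
  rw [cc, eq_neg_of_add_eq_zero_left h0, neg_neg]

theorem norm_sub_sq_le (a b : E) : ‖a - b‖ ^ 2 ≤ 2 * ‖a‖ ^ 2 + 2 * ‖b‖ ^ 2 := by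
  have h := parallelogram_law_with_norm ℝ a b
  nlinarith [sq_nonneg ‖a + b‖, norm_nonneg (a+b)]

theorem swap {κ : Type*} [Fintype κ] [DecidableEq κ] [FiniteDimensional ℝ E] (v : κ → E)
    (hv : ∀ i, ‖v i‖ = 1)
    (H : Long v (Module.finrank ℝ E - 1 / 3)) (x : κ → ℝ) (hx : Bas v x)
    (j : κ) (hj : j ∉ fr x) :
    ∃ x' : κ → ℝ, Bas v x' ∧ ∃ i ∈ fr x, fr x' = insert j ((fr x).erase i) ∧
      ∃ σ : ℝ, (σ = 1 ∨ σ = -1) ∧ ‖v i - σ • v j‖ ^ 2 < 2 / 3 := by
  have hxj := (not_mem_fr x hx.1 j).mp hj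
  have hxj2 : x j ^ 2 = 1 := by rcases hxj with h | h <;> rw [h] <;> norm_num
  have hli := bas_indep v hv _ (by norm_num) H x hx
  set S : Finset κ := insert j (fr x) with hS
  have hScard : S.card = Module.finrank ℝ E + 1 := by
    rw [hS, Finset.card_insert_of_notMem hj, hx.2.2]
  have hdep : ¬ LinearIndepOn ℝ v (S : Set κ) := by
    intro hcon
    have := card_le_of_indep v S hcon
    omega
  rw [linearIndepOn_finset_iff] at hdep hli
  push Not at hdep
  obtain ⟨f, hf, i1, hi1, hfi1⟩ := hdep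
  have hfj : f j ≠ 0 := by
    intro hfj
    rw [hS, Finset.sum_insert hj, hfj, zero_smul, zero_add] at hf
    have h1 := hli f hf
    rw [hS, Finset.mem_insert] at hi1
    rcases hi1 with h | h
    · exact hfi1 (h ▸ hfj)
    · exact hfi1 (h1 i1 h)
  set z : κ → ℝ := fun i => if i ∈ S then (- x j / f j) * f i else 0 with hz
  have hjS : j ∈ S := Finset.mem_insert_self _ _
  have hzj : z j = - x j := by
    simp only [hz, if_pos hjS]
    field_simp
  have hzsum : ∑ i, z i • v i = 0 := by
    have : ∑ i, z i • v i = (- x j / f j) • ∑ i ∈ S, f i • v i := by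
      rw [Finset.smul_sum]
      simp only [hz, ite_smul, zero_smul]
      rw [Finset.sum_ite_mem, Finset.univ_inter]
      refine Finset.sum_congr rfl fun i _ => ?_
      rw [smul_smul]
    rw [this, hf, smul_zero]
  have hzS : ∀ i, i ∉ S → z i = 0 := fun i hi => by simp [hz, hi]
  have hz1 : ∀ i, x i = 1 → z i ≤ 0 := by
    intro i hi
    have hnf : i ∉ fr x := (not_mem_fr x hx.1 i).mpr (Or.inl hi)
    by_cases hij : i = j
    · rw [hij, hzj, ← hij, hi]; norm_num
    · rw [hzS i (by rw [hS, Finset.mem_insert]; tauto)]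
  have hz2 : ∀ i, x i = -1 → 0 ≤ z i := by
    intro i hi
    have hnf : i ∉ fr x := (not_mem_fr x hx.1 i).mpr (Or.inr hi)
    by_cases hij : i = j
    · rw [hij, hzj, ← hij, hi]; norm_num
    · rw [hzS i (by rw [hS, Finset.mem_insert]; tauto)]
  have hzne : ∃ i, z i ≠ 0 := ⟨j, by
    rw [hzj]; rcases hxj with h | h <;> rw [h] <;> norm_num⟩
  obtain ⟨t, ht, hcube, k, hk, hk2⟩ := move x z hx.1 hz1 hz2 hzne
  set x' : κ → ℝ := fun i => x i + t * z i with hx'
  have hx'0 : ∑ i, x' i • v i = 0 := by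
    simp only [hx', add_smul, mul_smul, Finset.sum_add_distrib, ← Finset.smul_sum, hx.2.1, hzsum]
    simp
  have hkS : k ∈ S := by
    by_contra hcon
    exact hk (hzS k hcon)
  have hx'k : x' k = 1 ∨ x' k = -1 := by
    rcases hk2 with ⟨_, h⟩ | ⟨_, h⟩
    · exact Or.inl h
    · exact Or.inr h
  have hsub : fr x' ⊆ S.erase k := by
    intro i hi
    rw [Finset.mem_erase]
    constructor
    · rintro rfl
      exact (not_mem_fr x' hcube i).mpr hx'k hi
    · by_contra hcon
      have h1 : x' i = x i := by simp [hx', hzS i hcon]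
      rw [mem_fr, h1, ← mem_fr] at hi
      exact hcon (by rw [hS]; exact Finset.mem_insert_of_mem hi)
  have hcardE : (S.erase k).card = Module.finrank ℝ E := by
    rw [Finset.card_erase_of_mem hkS, hScard]; simp
  have hge := long_card v hv _ (by norm_num) H x' hcube hx'0
  have hfr' : fr x' = S.erase k := Finset.eq_of_subset_of_card_le hsub (by omega)
  have hbas' : Bas v x' := ⟨hcube, hx'0, by rw [hfr', hcardE]⟩
  -- the difference of the rounded parts
  have hfrx : fr x = S.erase j := by rw [hS, Finset.erase_insert hj]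
  have hc : cc v x = x j • v j + ∑ i ∈ Sᶜ, x i • v i := by
    rw [cc_eq v x hx.2.1, hfrx, Finset.compl_erase, Finset.sum_insert (by simpa using hjS)]
  have hc' : cc v x' = x' k • v k + ∑ i ∈ Sᶜ, x i • v i := by
    rw [cc_eq v x' hx'0, hfr', Finset.compl_erase, Finset.sum_insert (by simpa using hkS)]
    congr 1
    refine Finset.sum_congr rfl fun i hi => ?_
    rw [Finset.mem_compl] at hi
    simp [hx', hzS i hi]
  have hdiff : cc v x' - cc v x = x' k • v k - x j • v j := by
    rw [hc, hc']; abel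
  have hsm : ‖x' k • v k - x j • v j‖ ^ 2 < 2 / 3 := by
    rw [← hdiff]
    have h1 := norm_sub_sq_le (cc v x') (cc v x)
    have h2 := small_c v hv H x hx
    have h3 := small_c v hv H x' hbas'
    linarith
  by_cases hkj : k = j
  · exfalso
    have hx'j : x' k = - x j := by
      rw [hkj] at hk2 ⊢
      rw [hzj] at hk2
      rcases hk2 with ⟨h1, h2⟩ | ⟨h1, h2⟩
      · have : x j = -1 := by
          rcases hxj with h | h
          · rw [h] at h1; norm_num at h1
          · exact h
        rw [this]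
        have h3 : x' j = 1 := by simp only [hx', hzj]; exact h2
        rw [h3]; norm_num
      · have : x j = 1 := by
          rcases hxj with h | h
          · exact h
          · rw [h] at h1; norm_num at h1
        rw [this]
        have h3 : x' j = -1 := by simp only [hx', hzj]; exact h2
        rw [h3]
    rw [hkj] at hsm hx'j
    rw [hx'j, ← sub_smul, norm_smul, hv j, mul_one, Real.norm_eq_abs, sq_abs] at hsm
    nlinarith
  · have hkF : k ∈ fr x := by
      rw [hfrx, Finset.mem_erase]; exact ⟨hkj, hkS⟩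
    refine ⟨x', hbas', k, hkF, ?_, x' k * x j, ?_, ?_⟩
    · rw [hfr', hS, Finset.erase_insert_of_ne (Ne.symm hkj)]
    · rcases hx'k with h | h <;> rcases hxj with h' | h' <;> rw [h, h'] <;> norm_num
    · have h1 : x' k • v k - x j • v j = x' k • (v k - (x' k * x j) • v j) := by
        rw [smul_sub, smul_smul, ← mul_assoc]
        have : x' k * x' k = 1 := by rcases hx'k with h | h <;> rw [h] <;> norm_num
        rw [this, one_mul]
      rw [h1, norm_smul, mul_pow, Real.norm_eq_abs, sq_abs] at hsm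
      have : x' k ^ 2 = 1 := by rcases hx'k with h | h <;> rw [h] <;> norm_num
      rw [this, one_mul] at hsm
      exact hsm

theorem indep_sub {κ : Type*} [Fintype κ] [DecidableEq κ] [FiniteDimensional ℝ E] (v : κ → E)
    (hv : ∀ i, ‖v i‖ = 1)
    (H : Long v (Module.finrank ℝ E - 1 / 3)) (U : Finset κ)
    (hU : ∀ i ∈ U, ∀ j ∈ U, i ≠ j → ∀ σ : ℝ, (σ = 1 ∨ σ = -1) →
      2 / 3 ≤ ‖v i - σ • v j‖ ^ 2) :
    ∀ (n : ℕ) (x : κ → ℝ), Bas v x → (U \ fr x).card ≤ n → ∃ x', Bas v x' ∧ U ⊆ fr x' := by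
  intro n
  induction n with
  | zero =>
    intro x hx hn
    have : U \ fr x = ∅ := Finset.card_eq_zero.mp (Nat.le_zero.mp hn)
    exact ⟨x, hx, Finset.sdiff_eq_empty_iff_subset.mp this⟩
  | succ n ih =>
    intro x hx hn
    by_cases hem : U \ fr x = ∅
    · exact ⟨x, hx, Finset.sdiff_eq_empty_iff_subset.mp hem⟩
    · obtain ⟨j, hjm⟩ := Finset.nonempty_iff_ne_empty.mpr hem
      rw [Finset.mem_sdiff] at hjm
      obtain ⟨x', hb, i, hi, hfr, σ, hσ, hlt⟩ := swap v hv H x hx j hjm.2
      have hiU : i ∉ U := by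
        intro hiU
        have hij : i ≠ j := by rintro rfl; exact hjm.2 hi
        have := hU i hiU j hjm.1 hij σ hσ
        linarith
      refine ih x' hb ?_
      have hsub : U \ fr x' ⊆ (U \ fr x).erase j := by
        intro u hu
        rw [Finset.mem_sdiff, hfr, Finset.mem_insert, Finset.mem_erase] at hu
        push Not at hu
        rw [Finset.mem_erase, Finset.mem_sdiff]
        refine ⟨hu.2.1, hu.1, fun h => ?_⟩
        have hui : u ≠ i := by rintro rfl; exact hiU hu.1
        exact hu.2.2 hui h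
      have h1 := Finset.card_le_card hsub
      have h2 : ((U \ fr x).erase j).card < (U \ fr x).card :=
        Finset.card_erase_lt_of_mem (Finset.mem_sdiff.mpr hjm)
      omega

theorem indep_card {κ : Type*} [Fintype κ] [DecidableEq κ] [FiniteDimensional ℝ E] (v : κ → E)
    (hv : ∀ i, ‖v i‖ = 1)
    (H : Long v (Module.finrank ℝ E - 1 / 3)) (U : Finset κ)
    (hU : ∀ i ∈ U, ∀ j ∈ U, i ≠ j → ∀ σ : ℝ, (σ = 1 ∨ σ = -1) →
      2 / 3 ≤ ‖v i - σ • v j‖ ^ 2) : U.card ≤ Module.finrank ℝ E := by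
  obtain ⟨x, hx⟩ := bas_exists v hv _ (by norm_num) H
  obtain ⟨x', hb, hsub⟩ := indep_sub v hv H U hU _ x hx le_rfl
  rw [← hb.2.2]
  exact Finset.card_le_card hsub

/-- Greedy matching of close pairs. -/
theorem matching {κ : Type*} [DecidableEq κ] (v : κ → E) (θ : ℝ) : ∀ (n : ℕ) (T : Finset κ),
    T.card ≤ n → ∃ U ⊆ T, (∀ i ∈ U, ∀ j ∈ U, i ≠ j → ∀ σ : ℝ, (σ = 1 ∨ σ = -1) →
      θ ≤ ‖v i - σ • v j‖ ^ 2) ∧ ∃ (m : ℕ) (b : Fin m → E), (∀ k, ‖b k‖ ^ 2 < θ) ∧
      T.card = U.card + 2 * m ∧ ∀ (ε : κ → ℝ) (τ : Fin m → ℝ), (∀ i, ε i = 1 ∨ ε i = -1) →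
        (∀ k, τ k = 1 ∨ τ k = -1) → ∃ η : κ → ℝ, (∀ i, η i = 1 ∨ η i = -1) ∧
          ∑ i ∈ T, η i • v i = ∑ i ∈ U, ε i • v i + ∑ k, τ k • b k := by
  intro n
  induction n with
  | zero =>
    intro T hT
    have : T = ∅ := Finset.card_eq_zero.mp (Nat.le_zero.mp hT)
    subst this
    refine ⟨∅, subset_rfl, by simp, 0, fun k => k.elim0, fun k => k.elim0, by simp, ?_⟩
    intro ε τ hε _
    exact ⟨ε, hε, by simp⟩
  | succ n ih =>
    intro T hT
    by_cases hind : ∀ i ∈ T, ∀ j ∈ T, i ≠ j → ∀ σ : ℝ, (σ = 1 ∨ σ = -1) →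
      θ ≤ ‖v i - σ • v j‖ ^ 2
    · refine ⟨T, subset_rfl, hind, 0, fun k => k.elim0, fun k => k.elim0, by simp, ?_⟩
      intro ε τ hε _
      exact ⟨ε, hε, by simp⟩
    · push Not at hind
      obtain ⟨i, hi, j, hj, hij, σ, hσ, hlt⟩ := hind
      set T' := (T.erase i).erase j with hT'
      have hjT : j ∈ T.erase i := Finset.mem_erase.mpr ⟨Ne.symm hij, hj⟩
      have hc1 : (T.erase i).card + 1 = T.card := Finset.card_erase_add_one hi
      have hc2 : T'.card + 1 = (T.erase i).card := Finset.card_erase_add_one hjT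
      obtain ⟨U, hUT, hUind, m, b, hb, hcard, hlift⟩ := ih T' (by omega)
      refine ⟨U, hUT.trans ((Finset.erase_subset _ _).trans (Finset.erase_subset _ _)), hUind,
        m + 1, Fin.cons (v i - σ • v j) b, ?_, by omega, ?_⟩
      · intro k
        refine Fin.cases ?_ (fun k => ?_) k
        · simpa using hlt
        · simpa using hb k
      · intro ε τ hε hτ
        obtain ⟨η, hη, hsum⟩ := hlift ε (fun k => τ k.succ) hε (fun k => hτ k.succ)
        have hiT' : i ∉ T' := by simp [hT']
        have hjT' : j ∉ T' := by simp [hT']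
        have hT2 : T = insert i (insert j T') := by
          rw [hT', Finset.insert_erase hjT, Finset.insert_erase hi]
        refine ⟨Function.update (Function.update η j (-(τ 0 * σ))) i (τ 0), ?_, ?_⟩
        · apply sign_update
          · apply sign_update
            · exact hη
            · rcases hτ 0 with h | h <;> rcases hσ with h' | h' <;> rw [h, h'] <;> norm_num
          · exact hτ 0
        · have hi' : i ∉ insert j T' := by
            rw [Finset.mem_insert]; push Not; exact ⟨hij, hiT'⟩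
          rw [hT2, Finset.sum_insert hi', sum_update_smul _ i hi', Finset.sum_insert hjT',
            sum_update_smul _ j hjT', Function.update_self, Function.update_self, hsum,
            Fin.sum_univ_succ, Fin.cons_zero]
          simp only [Fin.cons_succ]
          rw [smul_sub, smul_smul, neg_smul]
          abel

/-- The uniform bound. -/
theorem uniform {κ : Type*} [Fintype κ] [DecidableEq κ] [FiniteDimensional ℝ E] (v : κ → E)
    (hv : ∀ i, ‖v i‖ = 1) (hpar : Fintype.card κ % 2 ≠ Module.finrank ℝ E % 2) :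
    ∃ η : κ → ℝ, (∀ i, η i = 1 ∨ η i = -1) ∧
      ‖∑ i, η i • v i‖ ^ 2 ≤ Module.finrank ℝ E - 1 / 3 := by
  by_contra hcon
  push Not at hcon
  have H : Long v (Module.finrank ℝ E - 1 / 3) := fun η hη => hcon η hη
  obtain ⟨U, -, hUind, m, b, hb, hcard, hlift⟩ := matching v (2 / 3) _ (Finset.univ : Finset κ) le_rfl
  rw [Finset.card_univ] at hcard
  have hUc := indep_card v hv H U hUind
  have hUc2 : U.card + 1 ≤ Module.finrank ℝ E := by
    rcases Nat.lt_or_ge U.card (Module.finrank ℝ E) with h | h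
    · exact h
    · exfalso; apply hpar; omega
  -- LP rounding for the reduced family
  set a : (U ⊕ Fin m) → E := Sum.elim (fun i => v i) b with ha
  obtain ⟨ζ, F, hζ, hF, hle⟩ := lp_round a
  obtain ⟨η, hη, hsum⟩ := hlift (fun i => if h : i ∈ U then ζ (Sum.inl ⟨i, h⟩) else 1)
    (fun k => ζ (Sum.inr k)) (by
      intro i
      by_cases h : i ∈ U
      · simp only [h, dif_pos]; exact hζ _
      · simp [h]) (fun k => hζ _)
  have h1 := H η hη
  have h2 : ∑ i, η i • v i = ∑ k, ζ k • a k := by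
    rw [hsum, Fintype.sum_sum_type]
    congr 1
    rw [← Finset.sum_coe_sort U]
    refine Finset.sum_congr rfl fun i _ => ?_
    simp [ha]
  rw [h2] at h1
  have h3 : ∑ k ∈ F, ‖a k‖ ^ 2 ≤ (Module.finrank ℝ E : ℝ) - 1 / 3 := by
    set F1 : Finset (U ⊕ Fin m) := F.filter (fun k => k.isLeft) with hF1
    set F2 : Finset (U ⊕ Fin m) := F.filter (fun k => ¬ k.isLeft) with hF2
    have hsplit : ∑ k ∈ F, ‖a k‖ ^ 2 = ∑ k ∈ F1, ‖a k‖ ^ 2 + ∑ k ∈ F2, ‖a k‖ ^ 2 :=
      (Finset.sum_filter_add_sum_filter_not _ _ _).symm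
    have hcs : F1.card + F2.card = F.card := Finset.card_filter_add_card_filter_not _
    have hF1c : F1.card ≤ U.card := by
      have : F1 ⊆ (Finset.univ : Finset U).map ⟨Sum.inl, Sum.inl_injective⟩ := by
        intro k hk
        rw [hF1, Finset.mem_filter] at hk
        rcases k with u | q
        · simp
        · simp at hk
      have h := Finset.card_le_card this
      simpa using h
    have hb1 : ∑ k ∈ F1, ‖a k‖ ^ 2 ≤ (F1.card : ℝ) := by
      have : ∑ k ∈ F1, ‖a k‖ ^ 2 ≤ ∑ k ∈ F1, (1 : ℝ) := by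
        apply Finset.sum_le_sum
        intro k hk
        rw [hF1, Finset.mem_filter] at hk
        rcases k with u | q
        · simp [ha, hv]
        · simp at hk
      rw [Finset.sum_const, nsmul_eq_mul, mul_one] at this
      exact this
    have hb2 : ∑ k ∈ F2, ‖a k‖ ^ 2 ≤ (F2.card : ℝ) * (2 / 3) := by
      have : ∑ k ∈ F2, ‖a k‖ ^ 2 ≤ ∑ k ∈ F2, (2 / 3 : ℝ) := by
        apply Finset.sum_le_sum
        intro k hk
        rw [hF2, Finset.mem_filter] at hk
        rcases k with u | q
        · simp at hk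
        · simp only [ha, Sum.elim_inr]; exact (hb q).le
      rw [Finset.sum_const, nsmul_eq_mul] at this
      exact this
    rw [hsplit]
    have e1 : (F1.card : ℝ) + F2.card ≤ Module.finrank ℝ E := by
      have : F1.card + F2.card ≤ Module.finrank ℝ E := by omega
      exact_mod_cast this
    have e2 : (F1.card : ℝ) + 1 ≤ Module.finrank ℝ E := by
      have : F1.card + 1 ≤ Module.finrank ℝ E := by omega
      exact_mod_cast this
    linarith
  linarith

end Pool.Agent.Lib.MP_1be6c9_co
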